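import Pool.Agent.Lib.SmL.Ch.ChebL
import Pool.Agent.Lib.SmL.Ch.Main
import Pool.Agent.Lib.SmNJ.XOkP

/-!
# SMITH-L, block CH: Chebotarev for the abstract systems over a global function field

`ChebT`: `CData.Cheb` for the places outside of `T`, without counting data (`cheb_of`).
`chebT`: it holds for every system `S` over a global function field `K` with `S.NN = NNp K Om N0`,
Frobenius elements `S.phi v` and inertia groups generated by `S.sg v` modulo the groups of `NN`.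
`geoOk_of`: the structure `GeoOk`. `xokL`: the structure `PSys.Ok` for the places outside of `T`.
`exists_frobL`: existence of places with given Frobenius class.
-/

set_option autoImplicit false

open Finset

namespace Pool.Agent.SmL

open Ch

section abs

variable {l : ℕ} {A G V V1 Pl : Type} [CommRing A] [Group G] [AddCommGroup V] [Module A V]
  [DistribMulAction G V] [AddCommGroup V1] [Module (ZMod l) V1]

/-- **Chebotarev** for the places outside `T` (`CData.Cheb` for `pl P = P`). -/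
def ChebT (S : Sys l A G V V1 Pl) (T : Set Pl) (deg : Pl → ℕ) (Geo : Subgroup G) (fr : G)
    (q a C : ℕ) : Prop :=
  ∀ N : Subgroup G, N.Normal → (∃ N0 ∈ S.NN, N0 ≤ N) →
    ∀ f : G → ℝ, (∀ s, ∀ n ∈ N, f (s * n) = f s) → (∀ s t, f (t * s * t⁻¹) = f s) →
    (∀ s, |f s| ≤ 1) →
    ∀ U : Finset G, (∀ t ∈ U, t ∈ Geo) → (∀ g ∈ Geo, ∃! t, t ∈ U ∧ t⁻¹ * g ∈ N) →
    ∀ d r : ℕ, 1 ≤ d → ∀ B : Finset (XX T deg).Pr, (∀ P, S.sg P.1 ∉ N → P ∈ B) →
    (XX T deg).degS B ≤ r → ∀ E : Finset (XX T deg).Pr, (∀ P, P ∈ E ↔ (XX T deg).deg P = d ∧ P ∉ B) →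
    |∑ P ∈ E, f (S.phi P.1) - (E.card : ℝ) * ((∑ t ∈ U, f (fr ^ d * t)) / U.card)| ≤
      C * ((N.index : ℝ) * (r + 1)) ^ a * √((q : ℝ) ^ d)

/-- The form of Chebotarev for a counting datum. -/
theorem CData.cheb_of {S : Sys l A G V V1 Pl} {T : Set Pl} {deg : Pl → ℕ} {Geo : Subgroup G}
    {fr : G} {q a C : ℕ} {cd : CData S (XX T deg)} (hpl : cd.pl = Subtype.val)
    (h : ChebT S T deg Geo fr q a C) : cd.Cheb Geo fr q a C := by
  intro N hN hN0 f h1 h2 h3 U h4 h5 d r hd B hB hr E hE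
  have e : ∀ P, cd.pl P = P.1 := fun P => congrFun hpl P
  have h6 := h N hN hN0 f h1 h2 h3 U h4 h5 d r hd B (fun P hP => hB P (by rw [e]; exact hP)) hr E hE
  rw [sum_congr rfl fun P _ => by rw [e P]]
  exact h6

/-- If `-1` is in the image of the group then `H^1(G / GN, V1) = 0`. -/
theorem znd_of_neg {S : Sys l A G V V1 Pl} (hl : l ≠ 2) (hp : l.Prime) {τ : G}
    (hτ : ∀ w, S.ac τ w = -w) {c : G → V1} (hc : ∀ s t, c (s * t) = c s + S.ac s (c t))
    (h0 : ∀ s ∈ S.GN, c s = 0) : ∃ z : V1, ∀ s, c s = S.ac s z - z := by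
  have : Fact l.Prime := ⟨hp⟩
  have h2 : (2 : ZMod l) ≠ 0 := by
    have h3 : ((2 : ℕ) : ZMod l) ≠ 0 := by
      rw [Ne, ZMod.natCast_eq_zero_iff]
      intro h
      exact hl ((Nat.prime_dvd_prime_iff_eq hp Nat.prime_two).1 h)
    exact_mod_cast h3
  -- `c (s τ) = c (τ s)`
  have hcomm : ∀ s, c (s * τ) = c (τ * s) := by
    intro s
    have h3 : s * τ = (τ * s) * ((τ * s)⁻¹ * (s * τ)) := by group
    have h4 : (τ * s)⁻¹ * (s * τ) ∈ S.GN := by
      change S.ac ((τ * s)⁻¹ * (s * τ)) = 1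
      have h5 : S.ac (s * τ) = S.ac (τ * s) := by
        refine LinearEquiv.ext fun w => ?_
        rw [map_mul, map_mul, LinearEquiv.mul_apply, LinearEquiv.mul_apply, hτ, hτ, map_neg]
      rw [map_mul, h5, ← map_mul, inv_mul_cancel, map_one]
    rw [h3, hc, h0 _ h4, map_zero, add_zero]
  -- `z = -c τ / 2`
  refine ⟨-((2 : ZMod l)⁻¹ • c τ), fun s => ?_⟩
  have h3 := hcomm s
  rw [hc, hc, hτ] at h3
  have h4 : (2 : ZMod l) • c s = c τ - S.ac s (c τ) := by
    rw [two_smul, eq_sub_iff_add_eq, add_assoc, h3]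
    abel
  have h5 : c s = (2 : ZMod l)⁻¹ • (c τ - S.ac s (c τ)) := by
    rw [← h4, smul_smul, inv_mul_cancel₀ h2, one_smul]
  rw [h5, smul_sub, map_neg, map_smul]
  abel

/-- `F_l[G] → End V1 × F_l` is onto if `F_l[G] → End V1` is and `-1` is in the image of the
group. -/
theorem span_of {S : Sys l A G V V1 Pl} (hl : l ≠ 2) (hp : l.Prime) {τ : G}
    (hτ : ∀ w, S.ac τ w = -w)
    (h : Submodule.span (ZMod l) (Set.range fun g : G => (S.ac g : V1 →ₗ[ZMod l] V1)) = ⊤)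
    (B : V1 →ₗ[ZMod l] V1) (ε : ZMod l) : ∃ T : G →₀ ZMod l,
      (∀ w, ∑ g ∈ T.support, T g • S.ac g w = B w) ∧ ∑ g ∈ T.support, T g = ε := by
  have : Fact l.Prime := ⟨hp⟩
  have h2 : (2 : ZMod l) ≠ 0 := by
    have h3 : ((2 : ℕ) : ZMod l) ≠ 0 := by
      rw [Ne, ZMod.natCast_eq_zero_iff]
      intro h
      exact hl ((Nat.prime_dvd_prime_iff_eq hp Nat.prime_two).1 h)
    exact_mod_cast h3
  have hB : B ∈ Submodule.span (ZMod l) (Set.range fun g : G => (S.ac g : V1 →ₗ[ZMod l] V1)) := by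
    rw [h]
    trivial
  rw [Finsupp.mem_span_range_iff_exists_finsupp] at hB
  obtain ⟨T₁, hT₁⟩ := hB
  set ε₁ : ZMod l := T₁.sum fun _ a => a with hε₁
  set a : ZMod l := (ε - ε₁) * (2 : ZMod l)⁻¹ with ha
  set T : G →₀ ZMod l := T₁ + (Finsupp.single 1 a + Finsupp.single τ a) with hT
  refine ⟨T, fun w => ?_, ?_⟩
  · have e1 : ∑ g ∈ T.support, T g • S.ac g w = T.sum fun g b => b • S.ac g w := rfl
    have hz : ∀ g : G, (0 : ZMod l) • S.ac g w = 0 := fun g => zero_smul _ _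
    have ha' : ∀ (g : G) (b b' : ZMod l), (b + b') • S.ac g w = b • S.ac g w + b' • S.ac g w :=
      fun g b b' => add_smul _ _ _
    rw [e1, hT, Finsupp.sum_add_index' hz ha', Finsupp.sum_add_index' hz ha',
      Finsupp.sum_single_index (hz 1), Finsupp.sum_single_index (hz τ), hτ, map_one]
    have e2 := congrArg (fun F : V1 →ₗ[ZMod l] V1 => F w) hT₁
    simp only [Finsupp.sum, LinearMap.sum_apply, LinearMap.smul_apply] at e2
    rw [Finsupp.sum, ← e2]
    simp
  · have e1 : ∑ g ∈ T.support, T g = T.sum fun _ b => b := rfl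
    rw [e1, hT, Finsupp.sum_add_index' (fun _ => rfl) (fun _ _ _ => rfl),
      Finsupp.sum_add_index' (fun _ => rfl) (fun _ _ _ => rfl), Finsupp.sum_single_index rfl,
      Finsupp.sum_single_index rfl, ← hε₁, ha]
    field_simp
    ring

/-- No fixed vectors if `-1` is in the image of the group. -/
theorem nofix_of {S : Sys l A G V V1 Pl} (hl : l ≠ 2) (hp : l.Prime) {τ : G}
    (hτ : ∀ w, S.ac τ w = -w) (w : V1) (hw : ∀ s, S.ac s w = w) : w = 0 := by
  have : Fact l.Prime := ⟨hp⟩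
  have h2 : (2 : ZMod l) ≠ 0 := by
    have h3 : ((2 : ℕ) : ZMod l) ≠ 0 := by
      rw [Ne, ZMod.natCast_eq_zero_iff]
      intro h
      exact hl ((Nat.prime_dvd_prime_iff_eq hp Nat.prime_two).1 h)
    exact_mod_cast h3
  have h3 := hw τ
  rw [hτ] at h3
  have h4 : (2 : ZMod l) • w = 0 := by
    rw [two_smul]
    nth_rewrite 1 [← h3]
    exact neg_add_cancel w
  exact (smul_eq_zero.1 h4).resolve_left h2

end abs

section conc

open Polynomial Pool.Agent.BSDFF Pool.Agent.GBC Pool.Agent.GBU Pool.Agent.Lib.SmD Cb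

variable {k K : Type} [Field k] [Finite k] [Field K] [Algebra k K] [Algebra (RatFunc k) K]
  [IsScalarTower k (RatFunc k) K] [FiniteDimensional (RatFunc k) K]
  [Algebra.IsSeparable (RatFunc k) K]
  {Om : Type} [Field Om] [Algebra K Om] [IsGalois K Om]

variable {l : ℕ} {A V V1 : Type} [CommRing A] [AddCommGroup V] [Module A V]
  [DistribMulAction (Om ≃ₐ[K] Om) V] [AddCommGroup V1] [Module (ZMod l) V1]

/-- **Chebotarev** in the form used by the assembly of SMITH-L. -/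
theorem chebT {S : Sys l A (Om ≃ₐ[K] Om) V V1 (Place k K)} {N0 : Subgroup (Om ≃ₐ[K] Om)}
    (hN0 : N0.Normal) (hN0o : IsOpen (N0 : Set (Om ≃ₐ[K] Om))) (hNN : S.NN = NNp K Om N0)
    {ab : Place k K → ValuationSubring Om} (hab : ∀ v, below K (ab v) = v.ring)
    (hph : ∀ v, IsFrob K (ab v) (S.phi v))
    (hsg : ∀ N ∈ NNp K Om N0, ∀ v, S.sg v ∈ N → iner K (ab v) ≤ N)
    (hunr : {v | S.sg v ∉ N0}.Finite) {T : Set (Place k K)}
    (hT : T.Finite) {fr : Om ≃ₐ[K] Om} (hfr : IsFrC k fr) :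
    ∃ a C : ℕ, ChebT S T Place.degree (GeoK k K Om) fr (Nat.card k) a C := by
  obtain ⟨a, C, h⟩ := chebL (Om := Om) hN0 hN0o hab hph hsg hunr hT hfr
  refine ⟨a, C, ?_⟩
  intro N hN hN1 f h1 h3 h4 U h5 h6 d r hd B hB hr E hE
  rw [hNN] at hN1
  exact h N hN hN1 f h1 h3 h4 U h5 h6 d r hd B hB hr E hE

omit [Algebra.IsSeparable (RatFunc k) K] [FiniteDimensional (RatFunc k) K] [Algebra (RatFunc k) K]
  [IsScalarTower k (RatFunc k) K] in
/-- The structure `GeoOk`, `Geo` = the elements which fix the constants. -/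
theorem geoOk_of {S : Sys l A (Om ≃ₐ[K] Om) V V1 (Place k K)}
    (hop : ∀ N ∈ S.NN, N.Normal ∧ IsOpen (N : Set (Om ≃ₐ[K] Om)))
    (hsg : ∀ v, ∃ w : ValuationSubring Om, S.sg v ∈ iner K w) {fr : Om ≃ₐ[K] Om}
    (hfr : IsFrC k fr)
    (h1 : ∀ c : (Om ≃ₐ[K] Om) → V1, S.CocG c → (∀ s ∈ S.GN, c s = 0) →
      ∃ z : V1, ∀ s, c s = S.ac s z - z) :
    CData.GeoOk (S := S) (GeoK k K Om) fr where
  normal := GeoK_normal
  sg_mem := fun v => by
    obtain ⟨w, hw⟩ := hsg v
    exact iner_le_GeoK w hw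
  comm := commutator_le_GeoK
  gen := fun N hN s => by
    have := (hop N hN).1
    exact gen_GeoK hfr (hop N hN).2 s
  znd := fun c hc hGN _ => h1 c hc hGN

/-- **The prime system of the places outside of a finite set.** `k` is algebraically closed in
`K`. -/
theorem xokL (hk : ∀ x : K, IsIntegral k x → ∃ c : k, algebraMap k K c = x)
    {T : Set (Place k K)} (hT : T.Finite) : (XX T Place.degree).Ok (Nat.card k) := by
  have h := SmNJ.xok k K hk hT
  exact ⟨h.two_le, h.pos, h.fin, h.pnt⟩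

end conc

end Pool.Agent.SmL
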