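import Pool.Agent.Lib.SmBU.B2

/-!
SMITH-L, block CH: Chebotarev with square root error term for the primes of a finite separable
extension `K / k(t)` and finite Galois extensions `M / K` containing a fixed finite extension `L / K`
(of any degree) such that `[M : L]` is prime to the characteristic. The constants depend only on
`L / K / k(t)`. (Version of `Lib/SmBU/B2.lean`, which is the case `L = K`.)
-/

set_option autoImplicit false

namespace Pool.Agent.SmL.Cb

open Module Polynomial Pool.Agent.SmB Pool.Agent.SmBU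

private theorem b2_num {n u h c₁ d e m b DB cB x y : ℕ} {W Y Z R : ℝ} (hn1 : 1 ≤ n) (hu1 : 1 ≤ u)
    (hh1 : 1 ≤ h) (hn : n ≤ c₁ * h ^ c₁) (hDB : DB ≤ b + d) (hcB : cB ≤ b + d) (hW1 : 1 ≤ W)
    (hR : R ≤ W) (hY0 : 0 ≤ Y)
    (hB1 : (u : ℝ) / n * Y ≤ 11 * (n : ℝ) ^ 3 * ((DB : ℝ) + ((d + e : ℕ) : ℝ) + 1) * W)
    (hx : (x : ℝ) ≤ m * (cB + 2 * R)) (hy : y ≤ b) (hZ : Z ≤ Y + ((x + y : ℕ) : ℝ)) :
    Z ≤ ((11 * c₁ ^ 4 * (2 * d + e + 1) + 1 + m * (d + 2) : ℕ) : ℝ) * (h : ℝ) ^ (4 * c₁) *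
      ((b : ℝ) + 1) * W := by
  have hW0 : 0 ≤ W := zero_le_one.trans hW1
  have hnR : (0 : ℝ) < n := by exact_mod_cast hn1
  have hu1 : (1 : ℝ) ≤ (u : ℝ) := by exact_mod_cast hu1
  set H : ℝ := (h : ℝ) ^ (4 * c₁) with hH
  have hH1 : 1 ≤ H := one_le_pow₀ (by exact_mod_cast hh1)
  have hH0 : 0 ≤ H := zero_le_one.trans hH1
  have hb0 : (0 : ℝ) ≤ (b : ℝ) := Nat.cast_nonneg _
  have hd0 : (0 : ℝ) ≤ (d : ℝ) := Nat.cast_nonneg _
  have he0 : (0 : ℝ) ≤ (e : ℝ) := Nat.cast_nonneg _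
  have hm0 : (0 : ℝ) ≤ (m : ℝ) := Nat.cast_nonneg _
  have hc0 : (0 : ℝ) ≤ (c₁ : ℝ) := Nat.cast_nonneg _
  have hn4 : (n : ℝ) ^ 4 ≤ (c₁ : ℝ) ^ 4 * H := by
    have h1 : (n : ℝ) ≤ (c₁ : ℝ) * (h : ℝ) ^ c₁ := by exact_mod_cast hn
    calc (n : ℝ) ^ 4 ≤ ((c₁ : ℝ) * (h : ℝ) ^ c₁) ^ 4 := pow_le_pow_left₀ hnR.le h1 4
      _ = (c₁ : ℝ) ^ 4 * H := by rw [mul_pow, ← pow_mul, hH, mul_comm c₁ 4]
  have hD' : (DB : ℝ) ≤ (b : ℝ) + d := by exact_mod_cast hDB
  have hY1 : Y ≤ 11 * (c₁ : ℝ) ^ 4 * H * ((2 * d + e + 1) * (b + 1)) * W := by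
    have h1 : Y ≤ (u : ℝ) * Y := by nlinarith
    have h2 : (u : ℝ) / n * Y = (u : ℝ) * Y / n := by ring
    rw [h2, div_le_iff₀ hnR] at hB1
    have h3 : (DB : ℝ) + ((d + e : ℕ) : ℝ) + 1 ≤ (2 * d + e + 1) * (b + 1) := by
      push_cast
      nlinarith
    have h4 : (0 : ℝ) ≤ (DB : ℝ) + ((d + e : ℕ) : ℝ) + 1 := by positivity
    calc Y ≤ (u : ℝ) * Y := h1
      _ ≤ 11 * (n : ℝ) ^ 3 * ((DB : ℝ) + ((d + e : ℕ) : ℝ) + 1) * W * n := hB1
      _ = 11 * (n : ℝ) ^ 4 * ((DB : ℝ) + ((d + e : ℕ) : ℝ) + 1) * W := by ring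
      _ ≤ 11 * ((c₁ : ℝ) ^ 4 * H) * ((2 * d + e + 1) * (b + 1)) * W := by
        have h5 : 11 * (n : ℝ) ^ 4 ≤ 11 * ((c₁ : ℝ) ^ 4 * H) := by linarith
        have h6 : (0 : ℝ) ≤ 11 * ((c₁ : ℝ) ^ 4 * H) :=
          mul_nonneg (by norm_num) (mul_nonneg (pow_nonneg hc0 _) hH0)
        exact mul_le_mul_of_nonneg_right (mul_le_mul h5 h3 h4 h6) hW0
      _ = _ := by ring
  have hcmp2 : (x : ℝ) ≤ m * ((d + 2) * (b + 1)) * W := by
    have h3 : (cB : ℝ) ≤ b + d := by exact_mod_cast hcB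
    refine hx.trans ?_
    rw [mul_assoc]
    refine mul_le_mul_of_nonneg_left ?_ hm0
    have h4 : (b : ℝ) + d ≤ (b + d) * W := le_mul_of_one_le_right (by positivity) hW1
    calc (cB : ℝ) + 2 * R ≤ (b + d) * W + 2 * W := by linarith
      _ = (b + d + 2) * W := by ring
      _ ≤ (d + 2) * (b + 1) * W := by
        refine mul_le_mul_of_nonneg_right ?_ hW0
        nlinarith [mul_nonneg hd0 hb0]
  have hcmp3 : (y : ℝ) ≤ (b + 1) * W := by
    have h1 : (y : ℝ) ≤ b := by exact_mod_cast hy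
    nlinarith
  have hx0 : 0 ≤ m * ((d + 2) * (b + 1)) * W := by positivity
  have hx1 : m * ((d + 2) * (b + 1)) * W ≤ (m * ((d + 2) * (b + 1)) * W) * H :=
    le_mul_of_one_le_right hx0 hH1
  have hx2 : 0 ≤ ((b : ℝ) + 1) * W := by positivity
  have hx3 : ((b : ℝ) + 1) * W ≤ (((b : ℝ) + 1) * W) * H := le_mul_of_one_le_right hx2 hH1
  have hfin : Z ≤ 11 * (c₁ : ℝ) ^ 4 * H * ((2 * d + e + 1) * (b + 1)) * W +
      ((m * ((d + 2) * (b + 1)) * W) * H + (((b : ℝ) + 1) * W) * H) := by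
    push_cast at hZ
    linarith
  refine hfin.trans (le_of_eq ?_)
  push_cast
  ring

theorem finrank_top_le (K L M : Type*) [Field K] [Field L] [Field M] [Algebra K L] [Algebra K M]
    [Algebra L M] [IsScalarTower K L M] [FiniteDimensional K M] : finrank L M ≤ finrank K M := by
  have h1 := finrank_mul_finrank K L M
  have h2 : FiniteDimensional K L := FiniteDimensional.left K L M
  have h3 : 0 < finrank K L := finrank_pos
  rw [← h1]
  exact Nat.le_mul_of_pos_left _ h3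

section unr

variable {k : Type*} [Field k]
  {K : Type*} [Field K] [Algebra k[X] K]
  {L : Type*} [Field L] [Algebra K L] [Algebra k[X] L] [IsScalarTower k[X] K L]
  {M : Type*} [Field M] [Algebra k[X] M] [Algebra K M] [Algebra L M] [IsScalarTower K L M]

/-- The inclusion of the rings of integers. -/
noncomputable def inL : AA k K →+* AA k L where
  toFun x := ⟨algebraMap K L x, IsIntegral.map (IsScalarTower.toAlgHom k[X] K L) x.2⟩
  map_one' := Subtype.ext (map_one _)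
  map_zero' := Subtype.ext (map_zero _)
  map_mul' x y := Subtype.ext (map_mul (algebraMap K L) (x : K) (y : K))
  map_add' x y := Subtype.ext (map_add (algebraMap K L) (x : K) (y : K))

theorem coe_inL (x : AA k K) : ((inL x : AA k L) : L) = algebraMap K L (x : K) := rfl

/-- Unramified over `K` implies unramified over `L`. -/
theorem unramK_up {v : Ideal (AA k L)} (h : UnramK M (v.comap (inL : AA k K →+* AA k L))) :
    UnramK M v := by
  intro I hI hIv σ hσ
  have h1 : AboveK (v.comap (inL : AA k K →+* AA k L)) I := by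
    intro x y hxy
    rw [Ideal.mem_comap]
    refine hIv (inL x) y ?_
    rw [hxy, coe_inL, ← IsScalarTower.algebraMap_apply]
  have h2 := h I hI h1 (σ.restrictScalars K) hσ
  refine AlgEquiv.ext fun x => ?_
  exact congrArg (fun g : M ≃ₐ[K] M => g x) h2

theorem comap_inL {v : Ideal (AA k L)} :
    (v.comap (inL : AA k K →+* AA k L)).comap (algebraMap k[X] (AA k K)) =
      v.comap (algebraMap k[X] (AA k L)) := by
  ext p
  rw [Ideal.mem_comap, Ideal.mem_comap, Ideal.mem_comap]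
  have h1 : (inL (algebraMap k[X] (AA k K) p) : AA k L) = algebraMap k[X] (AA k L) p := by
    apply Subtype.ext
    exact (IsScalarTower.algebraMap_apply k[X] K L p).symm
  rw [h1]

end unr

open Classical in
theorem B2_finL (k : Type) [Field k] [Finite k] (K : Type) [Field K] [Algebra (RatFunc k) K]
    [Algebra k[X] K] [IsScalarTower k[X] (RatFunc k) K]
    [FiniteDimensional (RatFunc k) K] [Algebra.IsSeparable (RatFunc k) K]
    (L : Type) [Field L] [Algebra K L] [Algebra (RatFunc k) L] [IsScalarTower (RatFunc k) K L]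
    [FiniteDimensional K L] [Algebra.IsSeparable K L] :
    ∃ C a : ℕ, ∀ (M : Type) [Field M] [Algebra K M] [Algebra L M] [IsScalarTower K L M]
      [Algebra (RatFunc k) M]
      [IsScalarTower (RatFunc k) K M] [Algebra k[X] M] [IsScalarTower k[X] (RatFunc k) M]
      [Algebra k M] [IsScalarTower k k[X] M] [FiniteDimensional K M] [IsGalois K M],
      ((finrank L M : ℕ) : k) ≠ 0 → ∀ (Bad : Finset (Ideal (AA k K))),
      (∀ v : Ideal (AA k K), v.IsPrime → v ≠ ⊥ → v ∉ Bad → UnramK M v) →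
      (∀ v ∈ Bad, v.IsPrime ∧ v ≠ ⊥) →
      ∀ (N : ℕ), N ≠ 0 → ∀ (f : (M ≃ₐ[K] M) → ℝ), (∀ g τ, f (g * τ * g⁻¹) = f τ) →
      (∀ τ, |f τ| ≤ 1) →
      ∑ τ ∈ Finset.univ.filter (fun τ : M ≃ₐ[K] M => CompK k N τ), f τ = 0 →
      ∀ (S : Finset (Ideal (AA k K))), (∀ v, v ∈ S ↔ v ∈ PrK k K N ∧ v ∉ Bad) →
      ∀ (fr : Ideal (AA k K) → (M ≃ₐ[K] M)), (∀ v ∈ S, FrobK v ((Nat.card k) ^ N) (fr v)) →
      |∑ v ∈ S, f (fr v)| ≤
        C * (finrank K M : ℝ) ^ a * ((∑ v ∈ Bad, dgK k v : ℕ) + 1) *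
          √((Nat.card k : ℝ) ^ (N + 1)) := by
  have hLf : FiniteDimensional (RatFunc k) L := FiniteDimensional.trans (RatFunc k) K L
  have hLs : Algebra.IsSeparable (RatFunc k) L := Algebra.IsSeparable.trans (RatFunc k) K L
  let _ : Algebra k[X] L :=
    ((algebraMap (RatFunc k) L).comp (algebraMap k[X] (RatFunc k))).toAlgebra
  have tX : IsScalarTower k[X] (RatFunc k) L := IsScalarTower.of_algebraMap_eq fun _ => rfl
  have tXK : IsScalarTower k[X] K L := tow_KM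
  obtain ⟨c₁, c, e, δ, hclo⟩ := exists_closure k L
  set m := finrank (RatFunc k) K with hm
  refine ⟨11 * c₁ ^ 4 * (2 * δ.natDegree + e + 1) + 1 + m * (δ.natDegree + 2), 4 * c₁, ?_⟩
  intro M _ _ _ _ _ _ _ _ _ _ _ _ hh Bad hBad hBadP N hN f hf hf1 hf0 S hS fr hfr
  have tM : IsScalarTower (RatFunc k) L M := by
    refine IsScalarTower.of_algebraMap_eq fun a => ?_
    rw [IsScalarTower.algebraMap_apply (RatFunc k) K M, IsScalarTower.algebraMap_apply K L M,
      ← IsScalarTower.algebraMap_apply (RatFunc k) K L]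
  have hMf : FiniteDimensional L M := FiniteDimensional.right K L M
  have hMg : IsGalois L M := IsGalois.tower_top_of_isGalois K L M
  obtain ⟨Mt, _, _, _, _, _, _, _, _, ι, α, hg, hα, hc, hgen⟩ := hclo M
  obtain ⟨res, hres, hsurj⟩ := exists_res (k := k) (K := K) (M := M) (Mt := Mt) (ι := ι)
  have hstab := card_stab hc hgen hh
  have hn := (card_gal hc hgen hα).trans (Nat.mul_le_mul_left c₁
    (Nat.pow_le_pow_left (finrank_top_le K L M) c₁))
  set n := finrank (RatFunc k) Mt with hndef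
  have hn1 : 1 ≤ n := finrank_pos
  set h := finrank K M with hhdef
  have hh1 : 1 ≤ h := finrank_pos
  -- the bad polynomials
  have hdec : ∀ v : Ideal (AA k K), v ∈ Bad → ∃ P : k[X], P.Monic ∧ Irreducible P ∧
      v.comap (algebraMap k[X] (AA k K)) = Ideal.span {P} := fun v hv =>
    exists_below (hBadP v hv).1 (hBadP v hv).2
  choose! Pb hPbm hPbi hPbv using hdec
  set B₁ : Finset k[X] := Bad.image Pb with hB₁
  set B₂ : Finset k[X] :=
    (UniqueFactorizationMonoid.normalizedFactors δ).toFinset with hB₂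
  set Bad' : Finset k[X] := B₁ ∪ B₂ with hBad'
  have hdegB₁ : ∑ P ∈ B₁, P.natDegree ≤ ∑ v ∈ Bad, dgK k v := by
    have h1 : ∑ P ∈ B₁, P.natDegree ≤ ∑ v ∈ Bad, (Pb v).natDegree := by
      rw [hB₁]
      exact Finset.sum_image_le_of_nonneg (fun _ _ => Nat.zero_le _)
    refine h1.trans (Finset.sum_le_sum fun v hv => ?_)
    obtain ⟨r, hr1, -, hr3⟩ := card_quot (hBadP v hv).1 (hPbi v hv) (hPbv v hv)
    rw [hr3]
    exact Nat.le_mul_of_pos_right _ hr1
  have hdegB₂ : ∑ P ∈ B₂, P.natDegree ≤ δ.natDegree := by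
    have h0 : ∀ P ∈ B₂, P ≠ 0 := by
      intro P hP
      rw [hB₂, Multiset.mem_toFinset,
        UniqueFactorizationMonoid.mem_normalizedFactors_iff' hg.ne] at hP
      exact hP.1.ne_zero
    rw [← natDegree_prod _ _ h0]
    refine natDegree_le_of_dvd ?_ hg.ne
    have h1 : ∏ P ∈ B₂, P = (UniqueFactorizationMonoid.normalizedFactors δ).dedup.prod := by
      rw [hB₂, Finset.prod, Multiset.map_id']
      rfl
    rw [h1]
    refine (Multiset.prod_dvd_prod_of_le (Multiset.dedup_le _)).trans ?_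
    exact (UniqueFactorizationMonoid.prod_normalizedFactors hg.ne).dvd
  have hdegBad' : ∑ P ∈ Bad', P.natDegree ≤ ∑ v ∈ Bad, dgK k v + δ.natDegree := by
    have h1 := Finset.sum_union_inter (s₁ := B₁) (s₂ := B₂) (f := fun P : k[X] => P.natDegree)
    rw [hBad']
    omega
  have hBad'U : ∀ P : k[X], P.Monic → Irreducible P → P ∉ Bad' → UnramM Mt P := by
    intro P hPm hPi hPB
    have hPδ : ¬ P ∣ δ := by
      intro hd
      apply hPB
      apply Finset.mem_union_right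
      rw [hB₂, Multiset.mem_toFinset]
      rw [UniqueFactorizationMonoid.mem_normalizedFactors_iff' hg.ne]
      exact ⟨hPi, hPm.normalize_eq_self, hd⟩
    refine unramM_of (K := L) hg hc hgen hPδ fun w hw hwP => unramK_up (K := K) ?_
    obtain ⟨v, hv⟩ : ∃ v : Ideal (AA k K), v = w.comap (inL : AA k K →+* AA k L) := ⟨_, rfl⟩
    rw [← hv]
    have hvp : v.IsPrime := by
      rw [hv]
      exact Ideal.comap_isPrime _ _
    have hvP : v.comap (algebraMap k[X] (AA k K)) = Ideal.span {P} := by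
      rw [hv, comap_inL, hwP]
    refine hBad v hvp (ne_bot_of hPi hvP) fun hvB => ?_
    apply hPB
    apply Finset.mem_union_left
    rw [hB₁, Finset.mem_image]
    refine ⟨v, hvB, eq_of_span (hPbm v hvB) hPm ?_⟩
    rw [← hPbv v hvB, hvP]
  -- Frobenius elements of the polynomials
  have hfrex : ∀ P : k[X], ∃ φ : Mt ≃ₐ[RatFunc k] Mt, P ∈ GoodF k Mt N → FrobM P φ := by
    intro P
    by_cases hP : P ∈ GoodF k Mt N
    · obtain ⟨φ, hφ⟩ := frob_exists (k := k) (M := Mt) (mem_irrF.1 (mem_goodF.1 hP).1).2.1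
      exact ⟨φ, fun _ => hφ⟩
    · exact ⟨1, fun h => absurd h hP⟩
  choose fr' hfr' using hfrex
  -- the bound over `k(t)`
  have hnR : (0 : ℝ) < n := by exact_mod_cast hn1
  have hB1 := B1_gen (k := k) (M := Mt) hg hstab Bad' hBad'U hN
    (f := fun τ => indF res f τ / n)
    (fun g τ => by simp only [indF_conj])
    (fun τ => by
      rw [abs_div, Nat.abs_cast, div_le_one hnR]
      exact abs_indF_le hf1 τ)
    (by
      rw [← Finset.sum_div, sum_indF N (sum_comp hres hsurj N hf0), zero_div])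
    hfr'
  -- the primes of degree `N` above the good polynomials
  have hfinP : ∀ P : k[X], Irreducible P → ∃ T : Finset (Ideal (AA k K)),
      ∀ v, v ∈ T ↔ v ∈ PrK k K N ∧ v.comap (algebraMap k[X] (AA k K)) = Ideal.span {P} := by
    intro P hP
    obtain ⟨h1, -⟩ := finite_above (K := K) hP
    have h2 : {v : Ideal (AA k K) | v ∈ PrK k K N ∧
        v.comap (algebraMap k[X] (AA k K)) = Ideal.span {P}}.Finite :=
      h1.subset fun v hv => ⟨hv.1.1, hv.2⟩
    exact ⟨h2.toFinset, fun v => by rw [Set.Finite.mem_toFinset]; rfl⟩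
  have hTex : ∀ P : k[X], ∃ T : Finset (Ideal (AA k K)), P ∈ GoodF k Mt N →
      ∀ v, v ∈ T ↔ v ∈ PrK k K N ∧ v.comap (algebraMap k[X] (AA k K)) = Ideal.span {P} := by
    intro P
    by_cases hP : P ∈ GoodF k Mt N
    · obtain ⟨T, hT⟩ := hfinP P (mem_irrF.1 (mem_goodF.1 hP).1).2.1
      exact ⟨T, fun _ => hT⟩
    · exact ⟨∅, fun h => absurd h hP⟩
  choose TP hTP using hTex
  have hρex : ∀ P : k[X], ∃ ρ : Ideal (AA k K) → (M ≃ₐ[K] M), P ∈ GoodF k Mt N →
      (∀ v ∈ TP P, FrobK v ((Nat.card k) ^ N) (ρ v)) ∧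
        indF res f (fr' P) = Nat.card (UK K ι) * ∑ v ∈ TP P, f (ρ v) := by
    intro P
    by_cases hP : P ∈ GoodF k Mt N
    · have hP' := mem_goodF.1 hP
      have hP'' := mem_irrF.1 hP'.1
      obtain ⟨ρ, h1, h2⟩ := sum_above hres hP''.1 hP''.2.1 hP''.2.2 hP'.2 (hfr' P hP) hf
        (hTP P hP)
      exact ⟨ρ, fun _ => ⟨h1, h2⟩⟩
    · exact ⟨1, fun h => absurd h hP⟩
  choose ρP hρP using hρex
  -- the union
  set T : Finset (Ideal (AA k K)) := (GoodF k Mt N).biUnion TP with hT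
  have hdisj : ∀ P ∈ GoodF k Mt N, ∀ P' ∈ GoodF k Mt N, P ≠ P' → Disjoint (TP P) (TP P') := by
    intro P hP P' hP' hne
    rw [Finset.disjoint_left]
    intro v hv hv'
    apply hne
    have h1 := ((hTP P hP v).1 hv).2
    have h2 := ((hTP P' hP' v).1 hv').2
    exact eq_of_span (mem_irrF.1 (mem_goodF.1 hP).1).1 (mem_irrF.1 (mem_goodF.1 hP').1).1
      (h1.symm.trans h2)
  -- the function on the union
  have hbex : ∀ v : Ideal (AA k K), ∃ τ : M ≃ₐ[K] M, ∀ P ∈ GoodF k Mt N, v ∈ TP P → ρP P v = τ := by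
    intro v
    by_cases hv : ∃ P ∈ GoodF k Mt N, v ∈ TP P
    · obtain ⟨P, hP, hvP⟩ := hv
      refine ⟨ρP P v, fun P' hP' hvP' => ?_⟩
      by_cases hne : P = P'
      · rw [hne]
      · exact absurd hvP' (Finset.disjoint_left.1 (hdisj P hP P' hP' hne) hvP)
    · exact ⟨1, fun P hP hvP => absurd ⟨P, hP, hvP⟩ hv⟩
  choose ρ hρ using hbex
  have hsumT : ∑ P ∈ GoodF k Mt N, ∑ v ∈ TP P, f (ρP P v) = ∑ v ∈ T, f (ρ v) := by
    rw [hT, Finset.sum_biUnion (fun P hP P' hP' hne => hdisj P hP P' hP' hne)]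
    exact Finset.sum_congr rfl fun P hP => Finset.sum_congr rfl fun v hv => by
      rw [hρ v P hP hv]
  set u : ℕ := Nat.card (UK K ι) with hu
  have hu1 : (1 : ℝ) ≤ (u : ℝ) := by
    have : 0 < u := Nat.card_pos
    exact_mod_cast this
  have hsumG : ∑ P ∈ GoodF k Mt N, indF res f (fr' P) / n = (u : ℝ) / n * ∑ v ∈ T, f (ρ v) := by
    rw [← hsumT, Finset.mul_sum]
    refine Finset.sum_congr rfl fun P hP => ?_
    rw [(hρP P hP).2]
    ring
  have hsumG' : |∑ P ∈ GoodF k Mt N, indF res f (fr' P) / (n : ℝ)| =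
      (u : ℝ) / n * |∑ v ∈ T, f (ρ v)| := by
    rw [hsumG, abs_mul, abs_of_nonneg (by positivity)]
  rw [hsumG'] at hB1
  -- comparison
  have hcmp := abs_sum_sub_le S T (fun v => f (fr v)) (fun v => f (ρ v)) (fun v _ => hf1 _)
    (fun v _ => hf1 _) (by
      intro v hvS hvT
      rw [hT, Finset.mem_biUnion] at hvT
      obtain ⟨P, hP, hvP⟩ := hvT
      have h1 := (hS v).1 hvS
      have hU := hBad v h1.1.1 h1.1.2.1 h1.2
      obtain ⟨g, hg'⟩ := frobK_conj hU ((hρP P hP).1 v hvP) (hfr v hvS)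
      change f (fr v) = f (ρ v)
      rw [hg', hf, hρ v P hP hvP])
  -- the two differences
  have hTS : (T \ S).card ≤ ∑ v ∈ Bad, dgK k v := by
    have h1 : T \ S ⊆ Bad := by
      intro v hv
      rw [Finset.mem_sdiff, hT, Finset.mem_biUnion] at hv
      obtain ⟨⟨P, hP, hvP⟩, hvS⟩ := hv
      by_contra hvB
      exact hvS ((hS v).2 ⟨((hTP P hP v).1 hvP).1, hvB⟩)
    refine (Finset.card_le_card h1).trans ?_
    rw [Finset.card_eq_sum_ones]
    refine Finset.sum_le_sum fun v hv => ?_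
    obtain ⟨r, hr1, -, hr3⟩ := card_quot (hBadP v hv).1 (hPbi v hv) (hPbv v hv)
    rw [hr3]
    exact Nat.mul_pos (hPbi v hv).natDegree_pos hr1
  have hST : (S \ T).card ≤ m * (Bad'.card + 2 * (Nat.card k) ^ (N / 2)) := by
    refine card_rest_le (S \ T) (fun v hv => ((hS v).1 (Finset.mem_sdiff.1 hv).1).1) Bad' ?_
    intro v hv P hPm hPi hvP hPN
    by_contra hPB
    have hP : P ∈ GoodF k Mt N := mem_goodF.2 ⟨mem_irrF.2 ⟨hPm, hPi, hPN⟩, hBad'U P hPm hPi hPB⟩
    apply (Finset.mem_sdiff.1 hv).2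
    rw [hT, Finset.mem_biUnion]
    exact ⟨P, hP, (hTP P hP v).2 ⟨((hS v).1 (Finset.mem_sdiff.1 hv).1).1, hvP⟩⟩
  have hBad'card : Bad'.card ≤ ∑ v ∈ Bad, dgK k v + δ.natDegree := by
    refine le_trans ?_ hdegBad'
    rw [Finset.card_eq_sum_ones]
    refine Finset.sum_le_sum fun P hP => ?_
    rcases Finset.mem_union.1 hP with h1 | h1
    · rw [hB₁, Finset.mem_image] at h1
      obtain ⟨v, hv, rfl⟩ := h1
      exact (hPbi v hv).natDegree_pos
    · rw [hB₂, Multiset.mem_toFinset,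
        UniqueFactorizationMonoid.mem_normalizedFactors_iff' hg.ne] at h1
      exact h1.1.natDegree_pos
  -- numerics
  set b : ℕ := ∑ v ∈ Bad, dgK k v with hb
  set q : ℝ := (Nat.card k : ℝ) with hq
  have hq1 : 1 ≤ q := by
    have : 0 < Nat.card k := Nat.card_pos
    rw [hq]
    exact_mod_cast this
  set W : ℝ := √(q ^ (N + 1)) with hW
  have hW1 : 1 ≤ W := by
    rw [hW, Real.one_le_sqrt]
    exact one_le_pow₀ hq1
  have hqW : q ^ (N / 2) ≤ W := by
    rw [hW]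
    apply Real.le_sqrt_of_sq_le
    rw [← pow_mul]
    exact pow_le_pow_right₀ hq1 (by omega)
  have hx : ((S \ T).card : ℝ) ≤ (m : ℝ) * (Bad'.card + 2 * q ^ (N / 2)) := by
    have h2 : ((S \ T).card : ℝ) ≤ ((m * (Bad'.card + 2 * (Nat.card k) ^ (N / 2)) : ℕ) : ℝ) := by
      exact_mod_cast hST
    refine h2.trans (le_of_eq ?_)
    push_cast
    rw [hq]
  have hu1' : 1 ≤ u := Nat.card_pos
  exact b2_num hn1 hu1' hh1 hn hdegBad' hBad'card hW1 hqW (abs_nonneg _) hB1 hx hTS hcmp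

end Pool.Agent.SmL.Cb
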