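import Pool.Agent.Lib.SmL.Ch.Kf

/-!
# SMITH-L, the counting data from duality: the cocycles `be P w`

`ZTm`: the space of the cocycles unramified outside `T`. `exists_be`: there are a linear map `sec` from
the dual of `ZTm` to the local vectors at `T` and, for every place `P` outside `T`, cocycles `be P w`
(`w` fixed by the Frobenius at `P`), additive in `w`, with value `w` at `sg P`, unramified at the
other places outside `T`, and whose local vector at `T` is, up to coboundaries,
`sec (b ↦ e (w, b (phi P)))`.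
-/

set_option autoImplicit false

open Finset

namespace Pool.Agent.SmL.Ch

/-- A linear map over a field has a generalised inverse. -/
theorem exists_sec {F A B : Type*} [Field F] [AddCommGroup A] [Module F A] [AddCommGroup B]
    [Module F B] (f : A →ₗ[F] B) : ∃ s : B →ₗ[F] A, ∀ a, f (s (f a)) = f a := by
  obtain ⟨g, hg⟩ := f.rangeRestrict.exists_rightInverse_of_surjective (LinearMap.range_rangeRestrict f)
  obtain ⟨s, hs⟩ := LinearMap.exists_extend g
  refine ⟨s, fun a => ?_⟩
  have h1 : s (f a) = g (f.rangeRestrict a) := by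
    rw [← hs]
    rfl
  rw [h1]
  exact congrArg Subtype.val (LinearMap.congr_fun hg (f.rangeRestrict a))

variable {l : ℕ} {A G V V1 Pl : Type} [CommRing A] [Group G] [AddCommGroup V] [Module A V]
  [DistribMulAction G V] [AddCommGroup V1] [Module (ZMod l) V1]

variable {S : Sys l A G V V1 Pl} {T : Set Pl}

/-- The space of the cocycles unramified outside `T`. -/
def ZTm (hS : S.Ok) (T : Set Pl) : Submodule (ZMod l) (G → V1) where
  carrier := {c | ZT S T c}
  add_mem' := by
    intro a b ha hb
    exact ⟨cocG_add hS ha.1 hb.1, fun v hv => by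
      rw [Pi.add_apply, ha.2 v hv, hb.2 v hv, add_zero]⟩
  zero_mem' := ⟨cocG_zero hS, fun _ _ => rfl⟩
  smul_mem' := by
    intro a c hc
    exact ⟨cocG_smul a hc.1, fun v hv => by rw [Pi.smul_apply, hc.2 v hv, smul_zero]⟩

theorem mem_ZTm {hS : S.Ok} {c : G → V1} : c ∈ ZTm hS T ↔ ZT S T c := Iff.rfl

/-- The space of the local vectors at `T`. -/
def LVm (hS : S.Ok) (T : Set Pl) : Submodule (ZMod l) (Pl → V1 × V1) where
  carrier := {xi | (∀ v, xi v ∈ S.CP v) ∧ ∀ v, v ∉ T → xi v = 0}
  add_mem' := by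
    intro a b ha hb
    exact ⟨fun v => cp_add hS (ha.1 v) (hb.1 v), fun v hv => by
      rw [Pi.add_apply, ha.2 v hv, hb.2 v hv, add_zero]⟩
  zero_mem' := ⟨fun v => cp_zero hS v, fun _ _ => rfl⟩
  smul_mem' := by
    intro a c hc
    exact ⟨fun v => cp_smul a (hc.1 v), fun v hv => by rw [Pi.smul_apply, hc.2 v hv, smul_zero]⟩

/-- The pairing map. -/
noncomputable def Xi (hS : S.Ok) {T : Set Pl} (hT : T.Finite) :
    LVm hS T →ₗ[ZMod l] Module.Dual (ZMod l) (ZTm hS T) :=
  LinearMap.mk₂ (ZMod l)
    (fun (xi : LVm hS T) (b : ZTm hS T) => ∑ v ∈ hT.toFinset, S.sy v (xi.1 v) (S.loc v b.1))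
    (by
      intro x y b
      rw [← sum_add_distrib]
      refine sum_congr rfl fun v _ => ?_
      have h1 : (x + y).1 v = x.1 v + y.1 v := rfl
      rw [h1, map_add, LinearMap.add_apply])
    (by
      intro a x b
      rw [smul_eq_mul, mul_sum]
      refine sum_congr rfl fun v _ => ?_
      have h1 : (a • x).1 v = a • x.1 v := rfl
      rw [h1, map_smul, LinearMap.smul_apply, smul_eq_mul])
    (by
      intro x b b'
      rw [← sum_add_distrib]
      refine sum_congr rfl fun v _ => ?_
      have h1 : S.loc v (b + b').1 = S.loc v b.1 + S.loc v b'.1 := rfl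
      rw [h1, map_add])
    (by
      intro a x b
      rw [smul_eq_mul, mul_sum]
      refine sum_congr rfl fun v _ => ?_
      have h1 : S.loc v (a • b).1 = a • S.loc v b.1 := rfl
      rw [h1, map_smul, smul_eq_mul])

theorem Xi_apply (hS : S.Ok) (hT : T.Finite) (xi : LVm hS T) (b : ZTm hS T) :
    Xi hS hT xi b = ∑ v ∈ hT.toFinset, S.sy v (xi.1 v) (S.loc v b.1) := rfl

/-- The functional `b ↦ e (w, b (s))`. -/
def lamF (hS : S.Ok) (T : Set Pl) (s : G) : V1 →ₗ[ZMod l] Module.Dual (ZMod l) (ZTm hS T) :=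
  LinearMap.mk₂ (ZMod l) (fun (w : V1) (b : ZTm hS T) => S.e w (b.1 s))
    (by intro x y b; rw [map_add, LinearMap.add_apply])
    (by intro a x b; rw [map_smul, LinearMap.smul_apply])
    (by
      intro x b b'
      have h1 : (b + b').1 s = b.1 s + b'.1 s := rfl
      rw [h1, map_add])
    (by
      intro a x b
      have h1 : (a • b).1 s = a • b.1 s := rfl
      rw [h1, map_smul])

theorem lamF_apply (hS : S.Ok) (s : G) (w : V1) (b : ZTm hS T) :
    lamF hS T s w b = S.e w (b.1 s) := rfl

/-- Reciprocity: the pairing at `T` of a cocycle ramified at `P` and `T` only. -/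
theorem sum_T (hS : S.Ok) (hV : LagV S T) {P : Pl} (hP : P ∉ T) {c : G → V1} (hc : S.CocG c)
    (hcu : ∀ v, v ∉ T → v ≠ P → c (S.sg v) = 0) (b : ZTm hS T) :
    ∑ v ∈ hV.fin.toFinset, S.sy v (S.loc v c) (S.loc v b.1) = S.e (c (S.sg P)) (b.1 (S.phi P)) := by
  classical
  have hgood : ∀ v, v ∉ T → v ∈ S.good := fun v hv => by
    by_contra hg
    exact hv (hV.bad hg)
  have hb : ZT S T b.1 := b.2
  have h1 := hS.recip c b.1 hc hb.1
  have h2 : ∀ v, v ∉ T → v ≠ P → S.sy v (S.loc v c) (S.loc v b.1) = 0 := fun v hv hvP =>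
    sy_unr_zero hS (hgood v hv) (loc_mem hc v) (loc_mem hb.1 v) (hcu v hv hvP) (hb.2 v hv)
  have h3 : S.sy P (S.loc P c) (S.loc P b.1) = -S.e (c (S.sg P)) (b.1 (S.phi P)) := by
    rw [hS.sy_comm P _ (loc_mem hc P) _ (loc_mem hb.1 P),
      hS.sy_unr P (hgood P hP) _ (loc_mem hb.1 P) _ (loc_mem hc P) (hb.2 P hP)]
    exact congrArg Neg.neg (hS.e_symm _ _).symm
  have h4 : (Function.support fun v => S.sy v (S.loc v c) (S.loc v b.1)) ⊆
      ((insert P hV.fin.toFinset : Finset Pl) : Set Pl) := by
    intro v hv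
    rw [Function.mem_support] at hv
    rw [Finset.coe_insert, Set.mem_insert_iff, Set.Finite.coe_toFinset]
    by_contra hcon
    push Not at hcon
    exact hv (h2 v hcon.2 hcon.1)
  rw [finsum_eq_sum_of_support_subset _ h4, sum_insert (by simpa using hP), h3] at h1
  linear_combination h1

theorem exists_be (hS : S.Ok) (hV : LagV S T) :
    ∃ (sec : Module.Dual (ZMod l) (ZTm hS T) →ₗ[ZMod l] LVm hS T) (be : Pl → V1 → G → V1),
      ∀ P, P ∉ T → ∀ w, S.ac (S.phi P) w = w →
        S.CocG (be P w) ∧ be P w (S.sg P) = w ∧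
        (∀ v, v ∉ T → v ≠ P → be P w (S.sg v) = 0) ∧
        (∀ v ∈ T, ∃ z, S.loc v (be P w) = (sec (lamF hS T (S.phi P) w)).1 v + S.cob v z) ∧
        ∀ w', S.ac (S.phi P) w' = w' → be P (w + w') = be P w + be P w' := by
  classical
  have : Fact l.Prime := ⟨hS.prime⟩
  obtain ⟨sec, hsec⟩ := exists_sec (Xi hS hV.fin)
  refine ⟨sec, ?_⟩
  -- the space of the good pairs at `P`
  have key : ∀ P : Pl, P ∉ T → ∃ be : V1 → G → V1, ∀ w, S.ac (S.phi P) w = w →
        S.CocG (be w) ∧ be w (S.sg P) = w ∧
        (∀ v, v ∉ T → v ≠ P → be w (S.sg v) = 0) ∧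
        (∀ v ∈ T, ∃ z, S.loc v (be w) = (sec (lamF hS T (S.phi P) w)).1 v + S.cob v z) ∧
        ∀ w', S.ac (S.phi P) w' = w' → be (w + w') = be w + be w' := by
    intro P hP
    let M : Submodule (ZMod l) (V1 × (G → V1)) :=
      { carrier := {x | S.ac (S.phi P) x.1 = x.1 ∧ S.CocG x.2 ∧ x.2 (S.sg P) = x.1 ∧
          (∀ v, v ∉ T → v ≠ P → x.2 (S.sg v) = 0) ∧
          ∀ v ∈ T, ∃ z, S.loc v x.2 = (sec (lamF hS T (S.phi P) x.1)).1 v + S.cob v z}
        add_mem' := by
          rintro x y ⟨hx1, hx2, hx3, hx4, hx5⟩ ⟨hy1, hy2, hy3, hy4, hy5⟩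
          refine ⟨?_, cocG_add hS hx2 hy2, ?_, ?_, ?_⟩
          · rw [Prod.fst_add, map_add, hx1, hy1]
          · rw [Prod.snd_add, Pi.add_apply, hx3, hy3, Prod.fst_add]
          · intro v hv hvP
            rw [Prod.snd_add, Pi.add_apply, hx4 v hv hvP, hy4 v hv hvP, add_zero]
          · intro v hv
            obtain ⟨z, hz⟩ := hx5 v hv
            obtain ⟨z', hz'⟩ := hy5 v hv
            refine ⟨z + z', ?_⟩
            have h1 : S.loc v (x + y).2 = S.loc v x.2 + S.loc v y.2 := rfl
            have h2 : (sec (lamF hS T (S.phi P) (x + y).1)).1 v =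
                (sec (lamF hS T (S.phi P) x.1)).1 v + (sec (lamF hS T (S.phi P) y.1)).1 v := by
              rw [Prod.fst_add, map_add, map_add]
              rfl
            have h3 : S.cob v (z + z') = S.cob v z + S.cob v z' := cob_add v z z'
            rw [h1, h2, h3, hz, hz']
            abel
        zero_mem' := by
          refine ⟨map_zero _, cocG_zero hS, rfl, fun _ _ _ => rfl, fun v _ => ⟨0, ?_⟩⟩
          have h1 : (sec (lamF hS T (S.phi P) (0 : V1 × (G → V1)).1)).1 v = 0 := by
            rw [Prod.fst_zero, map_zero, map_zero]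
            rfl
          rw [h1, cob_zero, add_zero]
          rfl
        smul_mem' := by
          rintro a x ⟨hx1, hx2, hx3, hx4, hx5⟩
          refine ⟨?_, cocG_smul a hx2, ?_, ?_, ?_⟩
          · rw [Prod.smul_fst, map_smul, hx1]
          · rw [Prod.smul_snd, Pi.smul_apply, hx3, Prod.smul_fst]
          · intro v hv hvP
            rw [Prod.smul_snd, Pi.smul_apply, hx4 v hv hvP, smul_zero]
          · intro v hv
            obtain ⟨z, hz⟩ := hx5 v hv
            refine ⟨a • z, ?_⟩
            have h1 : S.loc v (a • x).2 = a • S.loc v x.2 := rfl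
            have h2 : (sec (lamF hS T (S.phi P) (a • x).1)).1 v =
                a • (sec (lamF hS T (S.phi P) x.1)).1 v := by
              rw [Prod.smul_fst, map_smul, map_smul]
              rfl
            rw [h1, h2, cob_smul, hz, smul_add] }
    let FP : Submodule (ZMod l) V1 :=
      { carrier := {w | S.ac (S.phi P) w = w}
        add_mem' := by
          intro a b ha hb
          change S.ac (S.phi P) (a + b) = a + b
          rw [map_add]
          exact congrArg₂ _ ha hb
        zero_mem' := map_zero _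
        smul_mem' := by
          intro a x hx
          change S.ac (S.phi P) (a • x) = a • x
          rw [map_smul]
          exact congrArg _ hx }
    let pr : M →ₗ[ZMod l] FP :=
      { toFun := fun x => ⟨x.1.1, x.2.1⟩
        map_add' := fun _ _ => rfl
        map_smul' := fun _ _ => rfl }
    have hsurj : Function.Surjective pr := by
      rintro ⟨w, hw⟩
      obtain ⟨c, hc, hcw, hcu⟩ := hV.ram P hP w hw
      -- `lam` is in the range of `Xi`
      have hx0 : (fun v => if v ∈ T then S.loc v c else 0) ∈ LVm hS T := by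
        refine ⟨fun v => ?_, fun v hv => if_neg hv⟩
        by_cases hv : v ∈ T
        · simp only [if_pos hv]
          exact loc_mem hc v
        · simp only [if_neg hv]
          exact loc_mem (cocG_zero hS) v
      have hlam : Xi hS hV.fin ⟨_, hx0⟩ = lamF hS T (S.phi P) w := by
        ext b
        rw [Xi_apply, lamF_apply, ← hcw, ← sum_T hS hV hP hc hcu b]
        refine sum_congr rfl fun v hv => ?_
        rw [Set.Finite.mem_toFinset] at hv
        simp only [if_pos hv]
      have h1 := hsec ⟨_, hx0⟩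
      rw [hlam] at h1
      set xi := sec (lamF hS T (S.phi P) w) with hxi
      -- correct `c`
      obtain ⟨om, hom, hom'⟩ := hV.surj (fun v => xi.1 v - S.loc v c)
        (fun v => cp_sub hS (xi.2.1 v) (loc_mem hc v)) (by
          intro b hb
          rw [finsum_mem_eq_finite_toFinset_sum _ hV.fin]
          have h2 := LinearMap.congr_fun h1 ⟨b, hb⟩
          rw [Xi_apply, lamF_apply] at h2
          have h3 := sum_T hS hV hP hc hcu ⟨b, hb⟩
          rw [hcw] at h3
          simp only [map_sub, LinearMap.sub_apply, sum_sub_distrib]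
          rw [h2, h3]
          exact sub_self _)
      refine ⟨⟨(w, c + om), ?_⟩, rfl⟩
      refine ⟨hw, cocG_add hS hc hom.1, ?_, ?_, ?_⟩
      · change c (S.sg P) + om (S.sg P) = w
        rw [hom.2 P hP, hcw, add_zero]
      · intro v hv hvP
        change c (S.sg v) + om (S.sg v) = 0
        rw [hom.2 v hv, hcu v hv hvP, add_zero]
      · intro v hv
        obtain ⟨z, hz⟩ := hom' v hv
        refine ⟨z, ?_⟩
        have h2 : S.loc v (c + om) = S.loc v c + S.loc v om := rfl
        change S.loc v (c + om) = xi.1 v + S.cob v z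
        rw [h2, hz]
        abel
    obtain ⟨s, hs⟩ := pr.exists_rightInverse_of_surjective (LinearMap.range_eq_top.2 hsurj)
    refine ⟨fun w => if hw : S.ac (S.phi P) w = w then (s ⟨w, hw⟩).1.2 else 0, fun w hw => ?_⟩
    have h1 : ∀ (w : V1) (hw : S.ac (S.phi P) w = w), (s ⟨w, hw⟩).1.1 = w := fun w hw =>
      congrArg Subtype.val (LinearMap.congr_fun hs ⟨w, hw⟩)
    have h2 := (s ⟨w, hw⟩).2
    have h3 := h1 w hw
    simp only [dif_pos hw]
    refine ⟨h2.2.1, ?_, h2.2.2.2.1, ?_, ?_⟩
    · have h4 := h2.2.2.1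
      rw [h3] at h4
      exact h4
    · intro v hv
      obtain ⟨z, hz⟩ := h2.2.2.2.2 v hv
      rw [h3] at hz
      exact ⟨z, hz⟩
    · intro w' hw'
      have hww : S.ac (S.phi P) (w + w') = w + w' := by rw [map_add, hw, hw']
      simp only [dif_pos hw', dif_pos hww]
      have h5 : (⟨w + w', hww⟩ : FP) = ⟨w, hw⟩ + ⟨w', hw'⟩ := rfl
      rw [h5, map_add]
      rfl
  choose! be hbe using key
  exact ⟨be, hbe⟩

end Pool.Agent.SmL.Ch
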