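import Pool.Agent.Lib.GBU.NP

/-!
# SMITH-L: the family `NN`

`K`, `Om / K` Galois, `N0` an open normal subgroup of `Gal(Om / K)`, the group of a finite Galois
extension `L0 / K` which is at most tamely ramified. `NNp K Om N0` = the open normal subgroups `N`
such that `[N0 : N ⊓ N0]` is prime to the characteristic. All fields `M` with group in `NNp` are
at most tamely ramified over `K`, since `M L0 / L0` has degree prime to the characteristic.

`NNp K Om ⊤ = NP K Om`, `NP K Om ⊆ NNp K Om N0`, `N0 ∈ NNp K Om N0`, and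
`NNp K Om N0` is closed under intersections and larger normal subgroups.
-/

set_option autoImplicit false

namespace Pool.Agent.SmL

open Pool.Agent.Lib.SmD Pool.Agent.SmD Pool.Agent.GBU

variable (K Om : Type*) [Field K] [Field Om] [Algebra K Om]

/-- The open normal subgroups `N` such that `[N0 : N ⊓ N0]` is prime to the characteristic. -/
def NNp (N0 : Subgroup (Om ≃ₐ[K] Om)) : Set (Subgroup (Om ≃ₐ[K] Om)) :=
  {N | N.Normal ∧ IsOpen (N : Set (Om ≃ₐ[K] Om)) ∧ (N.relIndex N0 : K) ≠ 0}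

variable {K Om}

/-- For a normal subgroup the relative index grows with the group. -/
theorem relIndex_dvd_of_normal {G : Type*} [Group G] (N H H' : Subgroup G) [N.Normal]
    (h : H ≤ H') : N.relIndex H ∣ N.relIndex H' := by
  have h1 : (N.subgroupOf H').relIndex (H.subgroupOf H') = N.relIndex H := by
    rw [Subgroup.relIndex_subgroupOf h]
  rw [← h1]
  exact Subgroup.relIndex_dvd_index_of_normal _ _

namespace NNp

variable {N0 N N' : Subgroup (Om ≃ₐ[K] Om)}

theorem normal (h : N ∈ NNp K Om N0) : N.Normal := h.1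

theorem isOpen (h : N ∈ NNp K Om N0) : IsOpen (N : Set (Om ≃ₐ[K] Om)) := h.2.1

theorem relIndex_ne (h : N ∈ NNp K Om N0) : (N.relIndex N0 : K) ≠ 0 := h.2.2

theorem top_mem : (⊤ : Subgroup (Om ≃ₐ[K] Om)) ∈ NNp K Om N0 := by
  refine ⟨inferInstance, isOpen_univ, ?_⟩
  rw [Subgroup.relIndex_top_left, Nat.cast_one]
  exact one_ne_zero

theorem self_mem (h : N0.Normal) (ho : IsOpen (N0 : Set (Om ≃ₐ[K] Om))) : N0 ∈ NNp K Om N0 := by
  refine ⟨h, ho, ?_⟩
  rw [Subgroup.relIndex_self, Nat.cast_one]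
  exact one_ne_zero

theorem of_le_index (h : N.Normal) (ho : IsOpen (N : Set (Om ≃ₐ[K] Om))) (hle : N0 ≤ N) :
    N ∈ NNp K Om N0 := by
  refine ⟨h, ho, ?_⟩
  rw [Subgroup.relIndex_eq_one.2 hle, Nat.cast_one]
  exact one_ne_zero

theorem mem_of_le (h : N ∈ NNp K Om N0) (h' : N'.Normal) (hle : N ≤ N') : N' ∈ NNp K Om N0 := by
  refine ⟨h', Subgroup.isOpen_mono hle h.2.1, fun h0 => h.2.2 ?_⟩
  obtain ⟨m, hm⟩ := Subgroup.relIndex_dvd_of_le_left N0 hle
  rw [hm, Nat.cast_mul, h0, zero_mul]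

theorem inf_mem (h : N ∈ NNp K Om N0) (h' : N' ∈ NNp K Om N0) : N ⊓ N' ∈ NNp K Om N0 := by
  obtain ⟨h1, h2, h3⟩ := h
  obtain ⟨h1', h2', h3'⟩ := h'
  refine ⟨inferInstance, ?_, ?_⟩
  · rw [Subgroup.coe_inf]
    exact h2.inter h2'
  · rw [← Subgroup.relIndex_inf_mul_relIndex N N' N0, Nat.cast_mul]
    refine mul_ne_zero (fun h0 => h3 ?_) h3'
    obtain ⟨m, hm⟩ := relIndex_dvd_of_normal N (N' ⊓ N0) N0 inf_le_right
    rw [hm, Nat.cast_mul, h0, zero_mul]

theorem of_mem_NP (h : N ∈ NP K Om) : N ∈ NNp K Om N0 := by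
  obtain ⟨h1, h2, h3⟩ := h
  refine ⟨h1, h2, fun h0 => h3 ?_⟩
  obtain ⟨m, hm⟩ := Subgroup.relIndex_dvd_index_of_normal N N0
  rw [hm, Nat.cast_mul, h0, zero_mul]

theorem top_eq : NNp K Om (⊤ : Subgroup (Om ≃ₐ[K] Om)) = NP K Om := by
  ext N
  unfold NNp NP
  rw [Set.mem_ofPred_eq, Set.mem_ofPred_eq, Subgroup.relIndex_top_right]

theorem finiteIndex [IsGalois K Om] (h : N ∈ NNp K Om N0) : N.FiniteIndex := by
  have hcl : IsClosed (N : Set (Om ≃ₐ[K] Om)) := N.isClosed_of_isOpen h.2.1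
  have e1 : (IntermediateField.fixedField N).fixingSubgroup = N :=
    InfiniteGalois.fixingSubgroup_fixedField ⟨N, hcl⟩
  have hfd : FiniteDimensional K (IntermediateField.fixedField N) := by
    rw [← InfiniteGalois.isOpen_iff_finite, e1]
    exact h.2.1
  refine ⟨fun h0 => ?_⟩
  rw [← e1, ← IntermediateField.finrank_eq_fixingSubgroup_index Om] at h0
  exact Module.finrank_pos.ne' h0

end NNp

/-- Open normal subgroups correspond to finite Galois extensions. -/
theorem exists_field_of_open [IsGalois K Om] {N : Subgroup (Om ≃ₐ[K] Om)} (h1 : N.Normal)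
    (h2 : IsOpen (N : Set (Om ≃ₐ[K] Om))) :
    ∃ L : IntermediateField K Om, FiniteDimensional K L ∧ IsGalois K L ∧
      L.fixingSubgroup = N := by
  have hcl : IsClosed (N : Set (Om ≃ₐ[K] Om)) := N.isClosed_of_isOpen h2
  have e1 : (IntermediateField.fixedField N).fixingSubgroup = N :=
    InfiniteGalois.fixingSubgroup_fixedField ⟨N, hcl⟩
  have hfd : FiniteDimensional K (IntermediateField.fixedField N) := by
    rw [← InfiniteGalois.isOpen_iff_finite, e1]
    exact h2
  have hgal : IsGalois K (IntermediateField.fixedField N) := by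
    rw [← InfiniteGalois.normal_iff_isGalois, e1]
    exact h1
  exact ⟨_, hfd, hgal, e1⟩

end Pool.Agent.SmL
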