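import Pool.Agent.Lib.SmBU.ChebK
import Pool.Agent.Lib.SmL.Ch.B2L
import Pool.Agent.Lib.SmL.Ch.NNp

/-!
# SMITH-L, block CH: Chebotarev with square root error term for the family `NNp K Om N0`

Version of `Lib/SmBU/ChebK.lean` for the family `NNp K Om N0`, with arbitrary choices of the places
`ab v` of `Om` above `v`, the Frobenius elements `ph v` and the tame generators `sg v`: what is used
is that the inertia group of `ab v` is contained in `N ∈ NNp K Om N0` if `sg v ∈ N`.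
-/

set_option autoImplicit false

namespace Pool.Agent.SmL.Cb

open Module Polynomial Pool.Agent.SmB Pool.Agent.BSDFF Pool.Agent.GBC Pool.Agent.GBU
  Pool.Agent.SmBU Pool.Agent.Lib.SmD

section unr

variable {k K : Type} [Field k] [Field K] [Algebra k K] [Algebra (RatFunc k) K]
  [IsScalarTower k (RatFunc k) K] [FiniteDimensional (RatFunc k) K]
  [Algebra.IsSeparable (RatFunc k) K] [Algebra k[X] K] [IsScalarTower k[X] (RatFunc k) K]
  {Om : Type} [Field Om] [Algebra K Om]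
  {L : IntermediateField K Om} [Algebra k[X] L] [IsScalarTower k[X] K L]

/-- A place whose inertia group acts trivially on `L` is unramified in `L`. -/
theorem unramK_of [IsGalois K Om] [FiniteDimensional K L] [IsGalois K L]
    {v : Place k K} (hv : FinPl v) {w : ValuationSubring Om} (hw : below K w = v.ring)
    (hin : iner K w ≤ L.fixingSubgroup) : UnramK L (pI v) := by
  refine unramK_of_iner (memX_of_finPl hv hw) ?_ (mem_pI_iff hv hw) (pI_isPrime hv) ?_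
  · rw [hw]
    exact plc_ne_top v
  · intro σ hσ x
    exact (IntermediateField.mem_fixingSubgroup_iff L σ).1 (hin hσ) x x.2

end unr

section level

variable {k K : Type} [Field k] [Finite k] [Field K] [Algebra k K] [Algebra (RatFunc k) K]
  [IsScalarTower k (RatFunc k) K] [FiniteDimensional (RatFunc k) K]
  [Algebra.IsSeparable (RatFunc k) K] [Algebra k[X] K] [IsScalarTower k[X] (RatFunc k) K]
  {Om : Type} [Field Om] [Algebra K Om] [IsGalois K Om]
  {L : IntermediateField K Om} [FiniteDimensional K L] [IsGalois K L]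
  [Algebra k[X] L] [Algebra k L] [IsScalarTower k[X] K L]

open Classical in
theorem cheb_level {C a : ℕ}
    (hB2 : ∀ (Bad : Finset (Ideal (AA k K))),
      (∀ v : Ideal (AA k K), v.IsPrime → v ≠ ⊥ → v ∉ Bad → UnramK L v) →
      (∀ v ∈ Bad, v.IsPrime ∧ v ≠ ⊥) →
      ∀ (N : ℕ), N ≠ 0 → ∀ (f : (L ≃ₐ[K] L) → ℝ), (∀ g τ, f (g * τ * g⁻¹) = f τ) →
      (∀ τ, |f τ| ≤ 1) →
      ∑ τ ∈ Finset.univ.filter (fun τ : L ≃ₐ[K] L => CompK k N τ), f τ = 0 →
      ∀ (S : Finset (Ideal (AA k K))), (∀ v, v ∈ S ↔ v ∈ PrK k K N ∧ v ∉ Bad) →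
      ∀ (fr : Ideal (AA k K) → (L ≃ₐ[K] L)), (∀ v ∈ S, FrobK v ((Nat.card k) ^ N) (fr v)) →
      |∑ v ∈ S, f (fr v)| ≤
        C * (finrank K L : ℝ) ^ a * ((∑ v ∈ Bad, dgK k v : ℕ) + 1) *
          √((Nat.card k : ℝ) ^ (N + 1)))
    {ab : Place k K → ValuationSubring Om} (hab : ∀ v, below K (ab v) = v.ring)
    {sg ph : Place k K → (Om ≃ₐ[K] Om)} (hph : ∀ v, IsFrob K (ab v) (ph v))
    (hsg : ∀ v, sg v ∈ L.fixingSubgroup → iner K (ab v) ≤ L.fixingSubgroup)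
    {T : Set (Place k K)} (hT : T.Finite)
    {fr : Om ≃ₐ[K] Om} (hfr : IsFrC k fr) {f : (L ≃ₐ[K] L) → ℝ}
    (hf : ∀ g τ, f (g * τ * g⁻¹) = f τ) (hf1 : ∀ τ, |f τ| ≤ 1)
    (U : Finset (Om ≃ₐ[K] Om)) (hU : ∀ t ∈ U, t ∈ GeoK k K Om)
    (hU' : ∀ g ∈ GeoK k K Om, ∃! t, t ∈ U ∧ t⁻¹ * g ∈ L.fixingSubgroup)
    (d r : ℕ) (hd : 1 ≤ d) (B : Finset {v : Place k K // v ∉ T})
    (hB : ∀ P : {v : Place k K // v ∉ T}, sg P.1 ∉ L.fixingSubgroup → P ∈ B)
    (hBr : ∑ P ∈ B, P.1.degree ≤ r) (E : Finset {v : Place k K // v ∉ T})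
    (hE : ∀ P, P ∈ E ↔ P.1.degree = d ∧ P ∉ B) :
    |∑ P ∈ E, f (AlgEquiv.restrictNormalHom L (ph P.1)) -
        (E.card : ℝ) * ((∑ t ∈ U, f (AlgEquiv.restrictNormalHom L (fr ^ d * t))) / U.card)| ≤
      2 * (C * (finrank K L : ℝ) ^ a * ((r + ∑ v ∈ hT.toFinset, v.degree : ℕ) + 1) *
          √((Nat.card k : ℝ) ^ (d + 1))) + 2 * (finite_notFinPl k K).toFinset.card := by
  obtain ⟨hmean, hU0⟩ := mean_res (L := L) hfr d f U hU hU'
  set c : ℝ := (∑ t ∈ U, f (AlgEquiv.restrictNormalHom L (fr ^ d * t))) / U.card with hc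
  have hU0' : (0 : ℝ) < U.card := by
    have : 0 < U.card := Nat.pos_of_ne_zero hU0
    exact_mod_cast this
  have hc1 : |c| ≤ 1 := by
    rw [hc, abs_div, Nat.abs_cast, div_le_one hU0']
    refine (Finset.abs_sum_le_sum_abs _ _).trans ?_
    refine (Finset.sum_le_sum fun t _ => hf1 _).trans ?_
    rw [Finset.sum_const, nsmul_eq_mul, mul_one]
  set g : (L ≃ₐ[K] L) → ℝ := fun τ => (f τ - c) / 2 with hg
  have hg1 : ∀ τ, |g τ| ≤ 1 := by
    intro τ
    rw [hg]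
    change |(f τ - c) / 2| ≤ 1
    have h1 := hf1 τ
    have h3 := abs_sub (f τ) c
    rw [abs_div, abs_two]
    linarith
  have hgc : ∀ s τ, g (s * τ * s⁻¹) = g τ := by
    intro s τ
    rw [hg]
    change (f (s * τ * s⁻¹) - c) / 2 = (f τ - c) / 2
    rw [hf]
  have hg0 : ∑ τ ∈ Finset.univ.filter (fun τ : L ≃ₐ[K] L => CompK k d τ), g τ = 0 := by
    rw [hg]
    rw [← Finset.sum_div, Finset.sum_sub_distrib, Finset.sum_const, nsmul_eq_mul]
    have h1 : ((Finset.univ.filter fun τ : L ≃ₐ[K] L => CompK k d τ).card : ℝ) * c =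
        ∑ τ ∈ Finset.univ.filter (fun τ : L ≃ₐ[K] L => CompK k d τ), f τ := by
      rw [hc, mul_div_assoc', div_eq_iff hU0'.ne', mul_comm, hmean, mul_comm]
    rw [h1, sub_self, zero_div]
  -- the bad primes
  set W : Finset (Place k K) := (B.image Subtype.val ∪ hT.toFinset).filter fun v => FinPl v
    with hW
  set Bad : Finset (Ideal (AA k K)) := W.image pI with hBad
  have hmemW : ∀ w : Place k K, w ∈ W ↔ ((∃ h : w ∉ T, (⟨w, h⟩ : {v : Place k K // v ∉ T}) ∈ B) ∨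
      w ∈ T) ∧ FinPl w := by
    intro w
    rw [hW, Finset.mem_filter, Finset.mem_union, Finset.mem_image, Set.Finite.mem_toFinset]
    constructor
    · rintro ⟨⟨P, hP, rfl⟩ | h, hw⟩
      · exact ⟨Or.inl ⟨P.2, hP⟩, hw⟩
      · exact ⟨Or.inr h, hw⟩
    · rintro ⟨⟨h, hP⟩ | h, hw⟩
      · exact ⟨Or.inl ⟨_, hP, rfl⟩, hw⟩
      · exact ⟨Or.inr h, hw⟩
  have hmemBad : ∀ w : Place k K, FinPl w → (pI w ∈ Bad ↔ w ∈ W) := by
    intro w hw
    rw [hBad, Finset.mem_image]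
    constructor
    · rintro ⟨w', hw', h⟩
      rw [← pI_injective ((hmemW w').1 hw').2 hw h]
      exact hw'
    · intro h
      exact ⟨w, h, rfl⟩
  have hBadU : ∀ v : Ideal (AA k K), v.IsPrime → v ≠ ⊥ → v ∉ Bad → UnramK L v := by
    intro v hv h0 hvB
    obtain ⟨w, hw, rfl⟩ := exists_pI hv h0
    rw [hmemBad w hw, hmemW, not_and_or, not_or, not_exists] at hvB
    rcases hvB with ⟨h3, h4⟩ | h3
    · refine unramK_of hw (hab w) (hsg w ?_)
      by_contra h5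
      exact h3 h4 (hB ⟨w, h4⟩ h5)
    · exact absurd hw h3
  have hBadP : ∀ v ∈ Bad, v.IsPrime ∧ v ≠ ⊥ := by
    intro v hv
    rw [hBad, Finset.mem_image] at hv
    obtain ⟨w, hw, rfl⟩ := hv
    have h3 := ((hmemW w).1 hw).2
    exact ⟨pI_isPrime h3, pI_ne_bot h3⟩
  -- the good primes
  set Ef : Finset {v : Place k K // v ∉ T} := E.filter fun P => FinPl P.1 with hEf
  set S : Finset (Ideal (AA k K)) := Ef.image fun P => pI P.1 with hS
  have hmemS : ∀ v, v ∈ S ↔ v ∈ PrK k K d ∧ v ∉ Bad := by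
    intro v
    rw [hS, Finset.mem_image]
    constructor
    · rintro ⟨P, hP, rfl⟩
      rw [hEf, Finset.mem_filter, hE] at hP
      refine ⟨(pI_mem_PrK hP.2).2 hP.1.1, ?_⟩
      rw [hmemBad P.1 hP.2, hmemW]
      rintro ⟨⟨h3, h4⟩ | h3, -⟩
      · exact hP.1.2 h4
      · exact P.2 h3
    · rintro ⟨hv, hvB⟩
      obtain ⟨w, hw, rfl⟩ := exists_pI hv.1 hv.2.1
      rw [pI_mem_PrK hw] at hv
      rw [hmemBad w hw, hmemW] at hvB
      have h3 : w ∉ T := fun h => hvB ⟨Or.inr h, hw⟩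
      refine ⟨⟨w, h3⟩, ?_, rfl⟩
      rw [hEf, Finset.mem_filter, hE]
      exact ⟨⟨hv, fun h => hvB ⟨Or.inl ⟨h3, h⟩, hw⟩⟩, hw⟩
  -- the Frobenius elements
  have hfrex : ∀ v : Ideal (AA k K), ∃ ρ : L ≃ₐ[K] L, ∀ w : Place k K, FinPl w → pI w = v →
      ρ = AlgEquiv.restrictNormalHom L (ph w) := by
    intro v
    by_cases h : ∃ w : Place k K, FinPl w ∧ pI w = v
    · obtain ⟨w, hw, hwv⟩ := h
      refine ⟨AlgEquiv.restrictNormalHom L (ph w), fun w' hw' hwv' => ?_⟩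
      rw [pI_injective hw hw' (hwv.trans hwv'.symm)]
    · exact ⟨1, fun w hw hwv => absurd ⟨w, hw, hwv⟩ h⟩
  choose frI hfrI using hfrex
  have hfrS : ∀ v ∈ S, FrobK v ((Nat.card k) ^ d) (frI v) := by
    intro v hv
    rw [hS, Finset.mem_image] at hv
    obtain ⟨P, hP, rfl⟩ := hv
    rw [hEf, Finset.mem_filter, hE] at hP
    rw [hfrI (pI P.1) P.1 hP.2 rfl]
    have h3 := frobK_of_below hP.2 (hab P.1) (hph P.1)
      (τ := (AlgEquiv.restrictNormalHom L (ph P.1) : L ≃ₐ[K] L))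
      fun x => AlgEquiv.restrictNormal_commutes (ph P.1) L x
    rw [hP.1.1] at h3
    exact h3
  have hmain := hB2 Bad hBadU hBadP d (by omega) g hgc hg1 hg0 S hmemS frI hfrS
  have hsum : ∑ v ∈ S, g (frI v) = ∑ P ∈ Ef, g (AlgEquiv.restrictNormalHom L (ph P.1)) := by
    rw [hS, Finset.sum_image]
    · refine Finset.sum_congr rfl fun P hP => ?_
      rw [hfrI (pI P.1) P.1 (Finset.mem_filter.1 hP).2 rfl]
    · intro P hP P' hP' h
      have hP1 : P ∈ Ef := hP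
      have hP2 : P' ∈ Ef := hP'
      exact Subtype.ext (pI_injective (Finset.mem_filter.1 hP1).2 (Finset.mem_filter.1 hP2).2 h)
  rw [hsum] at hmain
  -- degrees
  have hdeg : ∑ v ∈ Bad, dgK k v ≤ r + ∑ v ∈ hT.toFinset, v.degree := by
    have h3 : ∑ v ∈ Bad, dgK k v ≤ ∑ w ∈ W, dgK k (pI w) := by
      rw [hBad]
      exact Finset.sum_image_le_of_nonneg (fun _ _ => Nat.zero_le _)
    have h4 : ∑ w ∈ W, dgK k (pI w) = ∑ w ∈ W, w.degree :=
      Finset.sum_congr rfl fun w hw => dgK_pI ((hmemW w).1 hw).2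
    have h5 : ∑ w ∈ W, w.degree ≤ ∑ w ∈ B.image Subtype.val ∪ hT.toFinset, w.degree :=
      Finset.sum_le_sum_of_subset (Finset.filter_subset _ _)
    have h6 := Finset.sum_union_inter (s₁ := B.image Subtype.val) (s₂ := hT.toFinset)
      (f := fun w : Place k K => w.degree)
    have h7 : ∑ w ∈ B.image Subtype.val, w.degree = ∑ P ∈ B, P.1.degree :=
      Finset.sum_image fun P _ P' _ h => Subtype.ext h
    omega
  -- the places above infinity
  have hEi : (E.filter fun P => ¬ FinPl P.1).card ≤ (finite_notFinPl k K).toFinset.card := by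
    refine Finset.card_le_card_of_injOn Subtype.val ?_ fun P _ P' _ h => Subtype.ext h
    intro P hP
    have hP1 : P ∈ E.filter fun P => ¬ FinPl P.1 := hP
    rw [Finset.mem_filter] at hP1
    rw [Finset.mem_coe, Set.Finite.mem_toFinset]
    exact hP1.2
  have hsplit : ∑ P ∈ E, f (AlgEquiv.restrictNormalHom L (ph P.1)) - (E.card : ℝ) * c =
      2 * ∑ P ∈ Ef, g (AlgEquiv.restrictNormalHom L (ph P.1)) +
        ∑ P ∈ E.filter (fun P => ¬ FinPl P.1),
          2 * g (AlgEquiv.restrictNormalHom L (ph P.1)) := by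
    have h3 : ∑ P ∈ E, f (AlgEquiv.restrictNormalHom L (ph P.1)) - (E.card : ℝ) * c =
        ∑ P ∈ E, 2 * g (AlgEquiv.restrictNormalHom L (ph P.1)) := by
      rw [← nsmul_eq_mul, ← Finset.sum_const, ← Finset.sum_sub_distrib]
      refine Finset.sum_congr rfl fun P _ => ?_
      rw [hg]
      ring
    rw [h3, hEf, ← Finset.sum_filter_add_sum_filter_not E (fun P => FinPl P.1), Finset.mul_sum]
  have hEb : |∑ P ∈ E.filter (fun P => ¬ FinPl P.1),
      2 * g (AlgEquiv.restrictNormalHom L (ph P.1))| ≤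
      2 * (finite_notFinPl k K).toFinset.card := by
    refine (Finset.abs_sum_le_sum_abs _ _).trans ?_
    have h3 : ∀ P ∈ E.filter (fun P => ¬ FinPl P.1),
        |2 * g (AlgEquiv.restrictNormalHom L (ph P.1))| ≤ 2 := by
      intro P _
      rw [abs_mul, abs_two]
      have := hg1 (AlgEquiv.restrictNormalHom L (ph P.1))
      linarith
    refine (Finset.sum_le_sum h3).trans ?_
    rw [Finset.sum_const, nsmul_eq_mul, mul_comm]
    have h4 : ((E.filter fun P => ¬ FinPl P.1).card : ℝ) ≤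
        (finite_notFinPl k K).toFinset.card := by exact_mod_cast hEi
    linarith
  rw [hsplit]
  refine (abs_add_le _ _).trans ?_
  rw [abs_mul, abs_two]
  have h3 : C * (finrank K L : ℝ) ^ a * ((∑ v ∈ Bad, dgK k v : ℕ) + 1) *
      √((Nat.card k : ℝ) ^ (d + 1)) ≤
      C * (finrank K L : ℝ) ^ a * ((r + ∑ v ∈ hT.toFinset, v.degree : ℕ) + 1) *
          √((Nat.card k : ℝ) ^ (d + 1)) := by
    refine mul_le_mul_of_nonneg_right ?_ (Real.sqrt_nonneg _)
    refine mul_le_mul_of_nonneg_left ?_ (by positivity)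
    have h4 : ((∑ v ∈ Bad, dgK k v : ℕ) : ℝ) ≤ ((r + ∑ v ∈ hT.toFinset, v.degree : ℕ) : ℝ) := by
      exact_mod_cast hdeg
    linarith
  linarith

end level

section reps

variable {G : Type*} [Group G]

/-- Representatives of `Γ / Γ ⊓ N`. -/
theorem exists_reps (Γ N : Subgroup G) [N.FiniteIndex] :
    ∃ U : Finset G, (∀ t ∈ U, t ∈ Γ) ∧ ∀ g ∈ Γ, ∃! t, t ∈ U ∧ t⁻¹ * g ∈ N := by
  classical
  have hfin : Finite (G ⧸ N) := inferInstance
  have h0 : ∀ c : G ⧸ N, ∃ g : G, (∃ h ∈ Γ, (QuotientGroup.mk h : G ⧸ N) = c) →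
      g ∈ Γ ∧ (QuotientGroup.mk g : G ⧸ N) = c := by
    intro c
    by_cases h : ∃ h ∈ Γ, (QuotientGroup.mk h : G ⧸ N) = c
    · obtain ⟨g, hg, hgc⟩ := h
      exact ⟨g, fun _ => ⟨hg, hgc⟩⟩
    · exact ⟨1, fun h' => absurd h' h⟩
  choose ρ hρ using h0
  have : Fintype (G ⧸ N) := Fintype.ofFinite _
  refine ⟨(Finset.univ.filter fun c : G ⧸ N => ∃ h ∈ Γ, (QuotientGroup.mk h : G ⧸ N) = c).image ρ,
    ?_, ?_⟩
  · intro t ht
    rw [Finset.mem_image] at ht
    obtain ⟨c, hc, rfl⟩ := ht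
    exact (hρ c (Finset.mem_filter.1 hc).2).1
  · intro g hg
    have hc : ∃ h ∈ Γ, (QuotientGroup.mk h : G ⧸ N) = QuotientGroup.mk g := ⟨g, hg, rfl⟩
    refine ⟨ρ (QuotientGroup.mk g), ⟨?_, ?_⟩, ?_⟩
    · rw [Finset.mem_image]
      exact ⟨_, Finset.mem_filter.2 ⟨Finset.mem_univ _, hc⟩, rfl⟩
    · rw [← QuotientGroup.eq]
      exact (hρ _ hc).2
    · rintro t ⟨ht, htg⟩
      rw [Finset.mem_image] at ht
      obtain ⟨c, hc', rfl⟩ := ht
      rw [← QuotientGroup.eq, (hρ c (Finset.mem_filter.1 hc').2).2] at htg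
      rw [htg]

/-- The mean value over a coset of `Γ` does not depend on the level. -/
theorem mean_level {Γ N N' : Subgroup G} (hle : N' ≤ N) {U U' : Finset G}
    (hU : ∀ t ∈ U, t ∈ Γ) (hU' : ∀ g ∈ Γ, ∃! t, t ∈ U ∧ t⁻¹ * g ∈ N)
    (hV : ∀ t ∈ U', t ∈ Γ) (hV' : ∀ g ∈ Γ, ∃! t, t ∈ U' ∧ t⁻¹ * g ∈ N')
    {f : G → ℝ} (hf : ∀ s, ∀ n ∈ N, f (s * n) = f s) (x : G) :
    (∑ t ∈ U', f (x * t)) / U'.card = (∑ t ∈ U, f (x * t)) / U.card := by
  classical
  have hex : ∀ g : G, ∃ t, g ∈ Γ → (t ∈ U ∧ t⁻¹ * g ∈ N) := by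
    intro g
    by_cases h : g ∈ Γ
    · obtain ⟨t, ht, -⟩ := hU' g h
      exact ⟨t, fun _ => ht⟩
    · exact ⟨1, fun h' => absurd h' h⟩
  choose ρ hρ using hex
  have hex' : ∀ g : G, ∃ t, g ∈ Γ → (t ∈ U' ∧ t⁻¹ * g ∈ N') := by
    intro g
    by_cases h : g ∈ Γ
    · obtain ⟨t, ht, -⟩ := hV' g h
      exact ⟨t, fun _ => ht⟩
    · exact ⟨1, fun h' => absurd h' h⟩
  choose ρ' hρ' using hex'
  have huniq : ∀ g ∈ Γ, ∀ t ∈ U', t⁻¹ * g ∈ N' → t = ρ' g := by
    intro g hg t ht h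
    obtain ⟨t₀, -, h2⟩ := hV' g hg
    rw [h2 t ⟨ht, h⟩, h2 (ρ' g) (hρ' g hg)]
  -- the fibres
  have hmap : ∀ t ∈ U', ρ t ∈ U := fun t ht => (hρ t (hV t ht)).1
  have hfibm : ∀ u ∈ U, ∀ t ∈ U', (ρ t = u ↔ u⁻¹ * t ∈ N) := by
    intro u hu t ht
    constructor
    · rintro rfl
      exact (hρ t (hV t ht)).2
    · intro h
      obtain ⟨t₀, -, h2⟩ := hU' t (hV t ht)
      rw [h2 u ⟨hu, h⟩, h2 (ρ t) (hρ t (hV t ht))]
  set c : ℕ := (U'.filter fun t => t ∈ N).card with hc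
  have hfib : ∀ u ∈ U, (U'.filter fun t => ρ t = u).card = c := by
    intro u hu
    symm
    refine Finset.card_bij' (fun t _ => ρ' (u * t)) (fun t _ => ρ' (u⁻¹ * t)) ?_ ?_ ?_ ?_
    · intro t ht
      rw [Finset.mem_filter] at ht ⊢
      have hut : u * t ∈ Γ := Γ.mul_mem (hU u hu) (hV t ht.1)
      obtain ⟨h1, h2⟩ := hρ' (u * t) hut
      refine ⟨h1, (hfibm u hu _ h1).2 ?_⟩
      have h3 : u⁻¹ * ρ' (u * t) = t * ((ρ' (u * t))⁻¹ * (u * t))⁻¹ := by group
      rw [h3]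
      exact N.mul_mem ht.2 (N.inv_mem (hle h2))
    · intro t ht
      rw [Finset.mem_filter] at ht ⊢
      have hut : u⁻¹ * t ∈ Γ := Γ.mul_mem (Γ.inv_mem (hU u hu)) (hV t ht.1)
      obtain ⟨h1, h2⟩ := hρ' (u⁻¹ * t) hut
      refine ⟨h1, ?_⟩
      have h4 := (hfibm u hu t ht.1).1 ht.2
      have h3 : ρ' (u⁻¹ * t) = (u⁻¹ * t) * ((ρ' (u⁻¹ * t))⁻¹ * (u⁻¹ * t))⁻¹ := by group
      rw [h3]
      exact N.mul_mem h4 (N.inv_mem (hle h2))
    · intro t ht
      rw [Finset.mem_filter] at ht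
      have hut : u * t ∈ Γ := Γ.mul_mem (hU u hu) (hV t ht.1)
      obtain ⟨h1, h2⟩ := hρ' (u * t) hut
      symm
      refine huniq _ (Γ.mul_mem (Γ.inv_mem (hU u hu)) (hV _ h1)) t ht.1 ?_
      have h3 : t⁻¹ * (u⁻¹ * ρ' (u * t)) = ((ρ' (u * t))⁻¹ * (u * t))⁻¹ := by group
      rw [h3]
      exact N'.inv_mem h2
    · intro t ht
      rw [Finset.mem_filter] at ht
      have hut : u⁻¹ * t ∈ Γ := Γ.mul_mem (Γ.inv_mem (hU u hu)) (hV t ht.1)
      obtain ⟨h1, h2⟩ := hρ' (u⁻¹ * t) hut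
      symm
      refine huniq _ (Γ.mul_mem (hU u hu) (hV _ h1)) t ht.1 ?_
      have h3 : t⁻¹ * (u * ρ' (u⁻¹ * t)) = ((ρ' (u⁻¹ * t))⁻¹ * (u⁻¹ * t))⁻¹ := by group
      rw [h3]
      exact N'.inv_mem h2
  have hc0 : c ≠ 0 := by
    obtain ⟨h1, h2⟩ := hρ' 1 Γ.one_mem
    have h3 : ρ' 1 ∈ N := by
      have h4 := N.inv_mem (hle h2)
      rwa [mul_one, inv_inv] at h4
    exact Finset.card_ne_zero_of_mem (Finset.mem_filter.2 ⟨h1, h3⟩)
  have hcard : U'.card = U.card * c := by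
    rw [Finset.card_eq_sum_card_fiberwise hmap, Finset.sum_congr rfl hfib, Finset.sum_const,
      smul_eq_mul]
  have hsum : ∑ t ∈ U', f (x * t) = c * ∑ t ∈ U, f (x * t) := by
    rw [← Finset.sum_fiberwise_of_maps_to hmap, Finset.mul_sum]
    refine Finset.sum_congr rfl fun u hu => ?_
    rw [← hfib u hu, ← nsmul_eq_mul, ← Finset.sum_const]
    refine Finset.sum_congr rfl fun t ht => ?_
    rw [Finset.mem_filter] at ht
    have h1 := (hfibm u hu t ht.1).1 ht.2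
    have h2 : x * t = x * u * (u⁻¹ * t) := by group
    rw [h2, hf _ _ h1]
  have hcR : (c : ℝ) ≠ 0 := by exact_mod_cast hc0
  rw [hsum, hcard]
  push_cast
  rw [mul_comm (U.card : ℝ), mul_div_mul_left _ _ hcR]

end reps

section main

variable {k K : Type} [Field k] [Finite k] [Field K] [Algebra k K] [Algebra (RatFunc k) K]
  [IsScalarTower k (RatFunc k) K] [FiniteDimensional (RatFunc k) K]
  [Algebra.IsSeparable (RatFunc k) K]
  {Om : Type} [Field Om] [Algebra K Om] [IsGalois K Om]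

private theorem cheb_num {C a h r DT nI d q : ℕ} (hq : 1 ≤ q) (hh : 1 ≤ h) :
    2 * (C * (h : ℝ) ^ a * ((r + DT : ℕ) + 1) * √((q : ℝ) ^ (d + 1))) + 2 * nI ≤
      ((2 * C * (DT + 1) * q + 2 * nI : ℕ) : ℝ) * ((h : ℝ) * (r + 1)) ^ (a + 1) *
        √((q : ℝ) ^ d) := by
  have hqR : (1 : ℝ) ≤ q := by exact_mod_cast hq
  have hhR : (1 : ℝ) ≤ h := by exact_mod_cast hh
  have hr0 : (0 : ℝ) ≤ r := Nat.cast_nonneg _
  have hD0 : (0 : ℝ) ≤ DT := Nat.cast_nonneg _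
  have hC0 : (0 : ℝ) ≤ C := Nat.cast_nonneg _
  have hn0 : (0 : ℝ) ≤ nI := Nat.cast_nonneg _
  have h1 : √((q : ℝ) ^ (d + 1)) ≤ q * √((q : ℝ) ^ d) := by
    rw [pow_succ, mul_comm, Real.sqrt_mul (by positivity)]
    refine mul_le_mul_of_nonneg_right ?_ (Real.sqrt_nonneg _)
    rw [Real.sqrt_le_left (by positivity)]
    nlinarith
  have h2 : (1 : ℝ) ≤ √((q : ℝ) ^ d) := by
    rw [Real.one_le_sqrt]
    exact one_le_pow₀ hqR
  have h3 : (1 : ℝ) ≤ (h : ℝ) * (r + 1) := by nlinarith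
  have h4 : (h : ℝ) ^ a * (r + 1) ≤ ((h : ℝ) * (r + 1)) ^ (a + 1) := by
    rw [mul_pow]
    have h5 : (h : ℝ) ^ a ≤ (h : ℝ) ^ (a + 1) := pow_le_pow_right₀ hhR (by omega)
    have h6 : ((r : ℝ) + 1) ≤ ((r : ℝ) + 1) ^ (a + 1) := by
      conv_lhs => rw [← pow_one ((r : ℝ) + 1)]
      exact pow_le_pow_right₀ (by linarith) (by omega)
    exact mul_le_mul h5 h6 (by linarith) (by positivity)
  have h5 : (1 : ℝ) ≤ ((h : ℝ) * (r + 1)) ^ (a + 1) := one_le_pow₀ h3
  set X : ℝ := ((h : ℝ) * (r + 1)) ^ (a + 1) with hX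
  set s : ℝ := √((q : ℝ) ^ d) with hs
  have h6 : (h : ℝ) ^ a * ((r + DT : ℕ) + 1) ≤ (DT + 1) * X := by
    have h7 : (((r + DT : ℕ) : ℝ) + 1) ≤ (DT + 1) * (r + 1) := by
      push_cast
      nlinarith
    calc (h : ℝ) ^ a * ((r + DT : ℕ) + 1) ≤ (h : ℝ) ^ a * ((DT + 1) * (r + 1)) :=
          mul_le_mul_of_nonneg_left h7 (by positivity)
      _ = (DT + 1) * ((h : ℝ) ^ a * (r + 1)) := by ring
      _ ≤ _ := mul_le_mul_of_nonneg_left h4 (by positivity)
  have h7 : C * (h : ℝ) ^ a * ((r + DT : ℕ) + 1) * √((q : ℝ) ^ (d + 1)) ≤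
      C * ((DT + 1) * X) * (q * s) := by
    rw [mul_assoc (C : ℝ)]
    exact mul_le_mul (mul_le_mul_of_nonneg_left h6 hC0) h1 (Real.sqrt_nonneg _) (by positivity)
  have h8 : (nI : ℝ) ≤ nI * (X * s) := by
    refine le_mul_of_one_le_right hn0 ?_
    nlinarith
  have h9 : 2 * (C * (h : ℝ) ^ a * ((r + DT : ℕ) + 1) * √((q : ℝ) ^ (d + 1))) + 2 * nI ≤
      2 * (C * ((DT + 1) * X) * (q * s)) + 2 * (nI * (X * s)) := by linarith
  refine h9.trans (le_of_eq ?_)
  push_cast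
  ring


/-- **Chebotarev** for the places of `K` outside a finite set `T` and the family `NNp K Om N0`. -/
theorem chebL {N0 : Subgroup (Om ≃ₐ[K] Om)} (hN0 : N0.Normal)
    (hN0o : IsOpen (N0 : Set (Om ≃ₐ[K] Om)))
    {ab : Place k K → ValuationSubring Om} (hab : ∀ v, below K (ab v) = v.ring)
    {sg ph : Place k K → (Om ≃ₐ[K] Om)} (hph : ∀ v, IsFrob K (ab v) (ph v))
    (hsg : ∀ N ∈ NNp K Om N0, ∀ v, sg v ∈ N → iner K (ab v) ≤ N)
    (hunr : {v | sg v ∉ N0}.Finite) {T : Set (Place k K)} (hT : T.Finite) {fr : Om ≃ₐ[K] Om}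
    (hfr : IsFrC k fr) :
    ∃ a C : ℕ, ∀ N : Subgroup (Om ≃ₐ[K] Om), N.Normal → (∃ N1 ∈ NNp K Om N0, N1 ≤ N) →
      ∀ f : (Om ≃ₐ[K] Om) → ℝ, (∀ s, ∀ n ∈ N, f (s * n) = f s) →
      (∀ s t, f (t * s * t⁻¹) = f s) → (∀ s, |f s| ≤ 1) →
      ∀ U : Finset (Om ≃ₐ[K] Om), (∀ t ∈ U, t ∈ GeoK k K Om) →
      (∀ g ∈ GeoK k K Om, ∃! t, t ∈ U ∧ t⁻¹ * g ∈ N) →
      ∀ d r : ℕ, 1 ≤ d → ∀ B : Finset {v : Place k K // v ∉ T},
      (∀ P, sg P.1 ∉ N → P ∈ B) → ∑ P ∈ B, P.1.degree ≤ r →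
      ∀ E : Finset {v : Place k K // v ∉ T}, (∀ P, P ∈ E ↔ P.1.degree = d ∧ P ∉ B) →
      |∑ P ∈ E, f (ph P.1) - (E.card : ℝ) * ((∑ t ∈ U, f (fr ^ d * t)) / U.card)| ≤
        C * ((N.index : ℝ) * (r + 1)) ^ a * √((Nat.card k : ℝ) ^ d) := by
  classical
  let _ : Algebra k[X] K :=
    ((algebraMap (RatFunc k) K).comp (algebraMap k[X] (RatFunc k))).toAlgebra
  have : IsScalarTower k[X] (RatFunc k) K := IsScalarTower.of_algebraMap_eq fun _ => rfl
  obtain ⟨L0, hL0f, hL0g, hL0⟩ := exists_field_of_open hN0 hN0o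
  let _ : Algebra (RatFunc k) L0 := ((algebraMap K L0).comp (algebraMap (RatFunc k) K)).toAlgebra
  have : IsScalarTower (RatFunc k) K L0 := IsScalarTower.of_algebraMap_eq fun _ => rfl
  obtain ⟨C, a, hB2⟩ := B2_finL k K L0
  have hN0i : N0.index ≠ 0 := by
    rw [← hL0, ← IntermediateField.finrank_eq_fixingSubgroup_index Om]
    exact finrank_pos.ne'
  -- the primes ramified in `L0`
  have hfinS : {P : {v : Place k K // v ∉ T} | sg P.1 ∉ N0}.Finite :=
    Set.Finite.preimage Subtype.val_injective.injOn hunr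
  set B0 : Finset {v : Place k K // v ∉ T} := hfinS.toFinset with hB0
  refine ⟨a + 1, 2 * (C * N0.index ^ a) *
    ((∑ v ∈ hT.toFinset, v.degree + ∑ P ∈ B0, P.1.degree) + 1) * Nat.card k +
    2 * ((finite_notFinPl k K).toFinset.card + B0.card), ?_⟩
  intro N hN hN1 f hfN hfc hf1 U hU hU' d r hd B hB hBr E hE
  obtain ⟨N1, hN1, hle⟩ := hN1
  have hNP := NNp.inf_mem (NNp.mem_of_le hN1 hN hle) (NNp.self_mem hN0 hN0o)
  obtain ⟨L, hLfd, hLgal, hLN⟩ := exists_field_of_open (NNp.normal hNP) (NNp.isOpen hNP)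
  have hL0L : L0 ≤ L := by
    have h1 : L.fixingSubgroup ≤ L0.fixingSubgroup := by
      rw [hL0, hLN]
      exact inf_le_right
    have h3 := IntermediateField.fixedField_antitone h1
    rwa [InfiniteGalois.fixedField_fixingSubgroup, InfiniteGalois.fixedField_fixingSubgroup] at h3
  let _ : Algebra (RatFunc k) L := ((algebraMap K L).comp (algebraMap (RatFunc k) K)).toAlgebra
  have : IsScalarTower (RatFunc k) K L := IsScalarTower.of_algebraMap_eq fun _ => rfl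
  let _ : Algebra k[X] L :=
    ((algebraMap (RatFunc k) L).comp (algebraMap k[X] (RatFunc k))).toAlgebra
  have : IsScalarTower k[X] (RatFunc k) L := IsScalarTower.of_algebraMap_eq fun _ => rfl
  let _ : Algebra k L := ((algebraMap k[X] L).comp (algebraMap k k[X])).toAlgebra
  have : IsScalarTower k k[X] L := IsScalarTower.of_algebraMap_eq fun _ => rfl
  have : IsScalarTower k[X] K L := tow_KM
  let _ : Algebra L0 L := (IntermediateField.inclusion hL0L).toRingHom.toAlgebra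
  have : IsScalarTower K L0 L := IsScalarTower.of_algebraMap_eq fun _ => rfl
  -- the function on the finite group
  have hlift : ∀ τ : L ≃ₐ[K] L, ∃ s : Om ≃ₐ[K] Om, AlgEquiv.restrictNormalHom L s = τ :=
    AlgEquiv.restrictNormalHom_surjective Om
  choose li hli using hlift
  set fL : (L ≃ₐ[K] L) → ℝ := fun τ => f (li τ) with hfL
  have hleN : L.fixingSubgroup ≤ N := by
    rw [hLN]
    exact inf_le_left
  have hfLr : ∀ s : Om ≃ₐ[K] Om, fL (AlgEquiv.restrictNormalHom L s) = f s := by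
    intro s
    rw [hfL]
    change f (li (AlgEquiv.restrictNormalHom L s)) = f s
    have h1 : s⁻¹ * li (AlgEquiv.restrictNormalHom L s) ∈ L.fixingSubgroup := by
      rw [← IntermediateField.restrictNormalHom_ker, MonoidHom.mem_ker, map_mul, map_inv, hli,
        inv_mul_cancel]
    rw [← hfN s _ (hleN h1), mul_inv_cancel_left]
  have hfLc : ∀ g τ, fL (g * τ * g⁻¹) = fL τ := by
    intro g τ
    rw [← hli g, ← hli τ, ← map_inv, ← map_mul, ← map_mul, hfLr, hfLr, hfc]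
  -- degrees
  have hidxL : L.fixingSubgroup.index = finrank K L :=
    (IntermediateField.finrank_eq_fixingSubgroup_index Om L).symm
  have hidx0 : N0.index = finrank K L0 := by
    rw [← hL0]
    exact (IntermediateField.finrank_eq_fixingSubgroup_index Om L0).symm
  have hrel : finrank L0 L = (N ⊓ N0).relIndex N0 := by
    have h1 := finrank_mul_finrank K L0 L
    have h2 := Subgroup.relIndex_mul_index (H := N ⊓ N0) (K := N0) inf_le_right
    rw [← hLN, hidxL, ← h1, ← hidx0, mul_comm] at h2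
    rw [← hLN]
    exact (Nat.eq_of_mul_eq_mul_left (Nat.pos_of_ne_zero hN0i) h2).symm
  have hdeg : ((finrank L0 L : ℕ) : k) ≠ 0 := by
    intro h
    apply NNp.relIndex_ne hNP
    rw [← hrel]
    have h1 : algebraMap k K ((finrank L0 L : ℕ) : k) = ((finrank L0 L : ℕ) : K) := map_natCast _ _
    rw [← h1, h, map_zero]
  have hidxle : finrank K L ≤ N0.index * N.index := by
    rw [← hidxL, hLN, mul_comm]
    exact Subgroup.index_inf_le
  -- the representatives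
  have hLfi : L.fixingSubgroup.FiniteIndex := ⟨by rw [hidxL]; exact finrank_pos.ne'⟩
  obtain ⟨V, hV, hV'⟩ := exists_reps (GeoK k K Om) L.fixingSubgroup
  have hmean := mean_level hleN hU hU' hV hV' hfN (fr ^ d)
  -- the bad primes
  have hBB : ∀ P : {v : Place k K // v ∉ T}, sg P.1 ∉ L.fixingSubgroup → P ∈ B ∪ B0 := by
    intro P hP
    rw [Finset.mem_union]
    by_contra h
    push Not at h
    apply hP
    rw [hLN]
    refine ⟨?_, ?_⟩
    · by_contra h1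
      exact h.1 (hB P h1)
    · by_contra h1
      apply h.2
      rw [hB0, Set.Finite.mem_toFinset]
      exact h1
  have hBBr : ∑ P ∈ B ∪ B0, P.1.degree ≤ r + ∑ P ∈ B0, P.1.degree := by
    have h1 := Finset.sum_union_inter (s₁ := B) (s₂ := B0)
      (f := fun P : {v : Place k K // v ∉ T} => P.1.degree)
    omega
  have hlev := cheb_level (L := L) (C := C) (a := a)
    (fun Bad h1 h3 N hN g h4 h5 h6 S h7 fr' h8 =>
      hB2 L hdeg Bad h1 h3 N hN g h4 h5 h6 S h7 fr' h8)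
    hab hph (fun v hv => by
      rw [hLN] at hv ⊢
      exact hsg _ hNP v hv)
    hT hfr hfLc (fun τ => hf1 _) V hV hV' d (r + ∑ P ∈ B0, P.1.degree) hd (B ∪ B0) hBB hBBr
    (E.filter fun P => P ∉ B0) (by
      intro P
      rw [Finset.mem_filter, hE, Finset.mem_union, not_or, and_assoc])
  simp only [hfLr] at hlev
  rw [hmean] at hlev
  set c : ℝ := (∑ t ∈ U, f (fr ^ d * t)) / U.card with hc
  have hc1 : |c| ≤ 1 := by
    have hU0' : (0 : ℝ) < U.card := by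
      obtain ⟨t, ⟨ht, -⟩, -⟩ := hU' 1 (GeoK k K Om).one_mem
      exact_mod_cast Finset.card_pos.2 ⟨t, ht⟩
    rw [hc, abs_div, Nat.abs_cast, div_le_one hU0']
    refine (Finset.abs_sum_le_sum_abs _ _).trans ?_
    refine (Finset.sum_le_sum fun t _ => hf1 _).trans ?_
    rw [Finset.sum_const, nsmul_eq_mul, mul_one]
  have hsplit : ∑ P ∈ E, f (ph P.1) - (E.card : ℝ) * c =
      (∑ P ∈ E.filter (fun P => P ∉ B0), f (ph P.1) -
        ((E.filter fun P => P ∉ B0).card : ℝ) * c) +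
      ∑ P ∈ E.filter (fun P => P ∈ B0), (f (ph P.1) - c) := by
    have h1 : ∀ S : Finset {v : Place k K // v ∉ T},
        ∑ P ∈ S, (f (ph P.1) - c) = ∑ P ∈ S, f (ph P.1) - (S.card : ℝ) * c := by
      intro S
      rw [Finset.sum_sub_distrib, Finset.sum_const, nsmul_eq_mul]
    rw [← h1, ← h1, add_comm, Finset.sum_filter_add_sum_filter_not E (fun P => P ∈ B0)]
  have hrest : |∑ P ∈ E.filter (fun P => P ∈ B0), (f (ph P.1) - c)| ≤ 2 * B0.card := by
    refine (Finset.abs_sum_le_sum_abs _ _).trans ?_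
    have h3 : ∀ P ∈ E.filter (fun P => P ∈ B0), |f (ph P.1) - c| ≤ 2 := by
      intro P _
      have h4 := abs_sub (f (ph P.1)) c
      have h5 := hf1 (ph P.1)
      linarith
    refine (Finset.sum_le_sum h3).trans ?_
    rw [Finset.sum_const, nsmul_eq_mul, mul_comm]
    have h4 : (E.filter fun P => P ∈ B0).card ≤ B0.card := by
      refine Finset.card_le_card fun P hP => (Finset.mem_filter.1 hP).2
    have h5 : ((E.filter fun P => P ∈ B0).card : ℝ) ≤ B0.card := by exact_mod_cast h4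
    linarith
  rw [hsplit]
  refine (abs_add_le _ _).trans ((add_le_add hlev hrest).trans ?_)
  have hNi : 1 ≤ N.index := by
    have h1 : 0 < finrank K L := finrank_pos
    rcases Nat.eq_zero_or_pos N.index with h2 | h2
    · rw [h2, mul_zero] at hidxle
      omega
    · exact h2
  have hpow : (finrank K L : ℝ) ^ a ≤ (N0.index : ℝ) ^ a * (N.index : ℝ) ^ a := by
    rw [← mul_pow]
    refine pow_le_pow_left₀ (Nat.cast_nonneg _) ?_ a
    exact_mod_cast hidxle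
  have hnum := cheb_num (C := C * N0.index ^ a) (a := a) (h := N.index) (r := r)
    (DT := ∑ v ∈ hT.toFinset, v.degree + ∑ P ∈ B0, P.1.degree)
    (nI := (finite_notFinPl k K).toFinset.card + B0.card) (d := d) (q := Nat.card k)
    Nat.card_pos hNi
  refine le_trans ?_ hnum
  have hs : 0 ≤ √((Nat.card k : ℝ) ^ (d + 1)) := Real.sqrt_nonneg _
  have h7 : (C : ℝ) * (finrank K L : ℝ) ^ a *
      ((((r + ∑ P ∈ B0, P.1.degree) + ∑ v ∈ hT.toFinset, v.degree : ℕ) : ℝ) + 1) *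
      √((Nat.card k : ℝ) ^ (d + 1)) ≤
      ((C * N0.index ^ a : ℕ) : ℝ) * (N.index : ℝ) ^ a *
      (((r + (∑ v ∈ hT.toFinset, v.degree + ∑ P ∈ B0, P.1.degree) : ℕ) : ℝ) + 1) *
      √((Nat.card k : ℝ) ^ (d + 1)) := by
    have e1 : (r + ∑ P ∈ B0, P.1.degree) + ∑ v ∈ hT.toFinset, v.degree =
        r + (∑ v ∈ hT.toFinset, v.degree + ∑ P ∈ B0, P.1.degree) := by ring
    rw [e1]
    refine mul_le_mul_of_nonneg_right (mul_le_mul_of_nonneg_right ?_ (by positivity)) hs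
    push_cast
    rw [mul_assoc (C : ℝ)]
    exact mul_le_mul_of_nonneg_left hpow (Nat.cast_nonneg _)
  push_cast at h7 ⊢
  linarith

end main

end Pool.Agent.SmL.Cb
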