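import Pool.Agent.Lib.SmL.Ch.Be

/-!
# SMITH-L, the counting data from duality: the characters `ch P`

`exists_ch`: there are a linear map `sec2` from the dual of the space of the characters
unramified outside `T` to the local vectors at `T` and, for every place `P` outside `T`, a
character `ch P`, ramified at `P`, unramified at the other places outside `T`, whose local vector at
`T` is `sec2 (b ↦ b (phi P))`.
-/

set_option autoImplicit false

open Finset

namespace Pool.Agent.SmL.Ch

variable {l : ℕ} {A G V V1 Pl : Type} [CommRing A] [Group G] [AddCommGroup V] [Module A V]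
  [DistribMulAction G V] [AddCommGroup V1] [Module (ZMod l) V1]

variable {S : Sys l A G V V1 Pl} {T : Set Pl}

theorem loc2_add (v : Pl) (c d : G → ZMod l) : loc2 S v (c + d) = loc2 S v c + loc2 S v d := rfl

theorem loc2_smul (v : Pl) (a : ZMod l) (c : G → ZMod l) : loc2 S v (a • c) = a • loc2 S v c := rfl

/-- The space of the characters unramified outside `T`. -/
def XTm (hS : S.Ok) (T : Set Pl) : Submodule (ZMod l) (G → ZMod l) where
  carrier := {c | XT S T c}
  add_mem' := by
    intro a b ha hb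
    exact ⟨homG_add hS ha.1 hb.1, fun v hv => by
      rw [Pi.add_apply, ha.2 v hv, hb.2 v hv, add_zero]⟩
  zero_mem' := ⟨homG_zero hS, fun _ _ => rfl⟩
  smul_mem' := by
    intro a c hc
    exact ⟨homG_smul a hc.1, fun v hv => by rw [Pi.smul_apply, hc.2 v hv, smul_zero]⟩

/-- The pairing map. -/
noncomputable def Xi2 (hS : S.Ok) {T : Set Pl} (hT : T.Finite) :
    (Pl → ZMod l × ZMod l) →ₗ[ZMod l] Module.Dual (ZMod l) (XTm hS T) :=
  LinearMap.mk₂ (ZMod l)
    (fun (xi : Pl → ZMod l × ZMod l) (b : XTm hS T) =>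
      ∑ v ∈ hT.toFinset, symL (xi v) (loc2 S v b.1))
    (by
      intro x y b
      rw [← sum_add_distrib]
      refine sum_congr rfl fun v _ => ?_
      rw [Pi.add_apply, symL_add_left])
    (by
      intro a x b
      rw [smul_eq_mul, mul_sum]
      refine sum_congr rfl fun v _ => ?_
      rw [Pi.smul_apply, symL_smul_left])
    (by
      intro x b b'
      rw [← sum_add_distrib]
      refine sum_congr rfl fun v _ => ?_
      rw [Submodule.coe_add, loc2_add, symL_add_right])
    (by
      intro a x b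
      rw [smul_eq_mul, mul_sum]
      refine sum_congr rfl fun v _ => ?_
      rw [Submodule.coe_smul, loc2_smul, symL_smul_right])

theorem Xi2_apply (hS : S.Ok) (hT : T.Finite) (xi : Pl → ZMod l × ZMod l) (b : XTm hS T) :
    Xi2 hS hT xi b = ∑ v ∈ hT.toFinset, symL (xi v) (loc2 S v b.1) := rfl

/-- The functional `b ↦ b s`. -/
def mu (hS : S.Ok) (T : Set Pl) (s : G) : Module.Dual (ZMod l) (XTm hS T) where
  toFun b := b.1 s
  map_add' _ _ := rfl
  map_smul' _ _ := rfl

theorem mu_apply (hS : S.Ok) (s : G) (b : XTm hS T) : mu hS T s b = b.1 s := rfl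

/-- Reciprocity for a character ramified at `P` and `T` only. -/
theorem sum_T2 (hV : LagV S T) (hF : LagF S T) {P : Pl} (hP : P ∉ T)
    {c d : G → ZMod l} (hc : S.HomG c) (hcu : ∀ v, v ∉ T → v ≠ P → c (S.sg v) = 0)
    (hd : XT S T d) :
    ∑ v ∈ hV.fin.toFinset, symL (loc2 S v c) (loc2 S v d) = c (S.sg P) * d (S.phi P) := by
  classical
  have h1 := hF.recip c d hc hd.1
  have h2 : ∀ v, v ∉ T → v ≠ P → symL (loc2 S v c) (loc2 S v d) = 0 := fun v hv hvP => by
    simp only [symL, loc2]
    rw [hcu v hv hvP, hd.2 v hv]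
    ring
  have h3 : symL (loc2 S P c) (loc2 S P d) = -(c (S.sg P) * d (S.phi P)) := by
    simp only [symL, loc2]
    rw [hd.2 P hP]
    ring
  have h4 : (Function.support fun v => symL (loc2 S v c) (loc2 S v d)) ⊆
      ((insert P hV.fin.toFinset : Finset Pl) : Set Pl) := by
    intro v hv
    rw [Function.mem_support] at hv
    rw [Finset.coe_insert, Set.mem_insert_iff, Set.Finite.coe_toFinset]
    by_contra hcon
    push Not at hcon
    exact hv (h2 v hcon.2 hcon.1)
  rw [finsum_eq_sum_of_support_subset _ h4, sum_insert (by simpa using hP), h3] at h1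
  linear_combination h1

theorem exists_ch (hS : S.Ok) (hV : LagV S T) (hF : LagF S T) :
    ∃ (sec2 : Module.Dual (ZMod l) (XTm hS T) →ₗ[ZMod l] (Pl → ZMod l × ZMod l))
      (ch : Pl → G → ZMod l), ∀ P, P ∉ T →
        S.HomG (ch P) ∧ ch P (S.sg P) = 1 ∧ (∀ v, v ∉ T → v ≠ P → ch P (S.sg v) = 0) ∧
        ∀ v ∈ T, loc2 S v (ch P) = sec2 (mu hS T (S.phi P)) v := by
  classical
  have : Fact l.Prime := ⟨hS.prime⟩
  obtain ⟨sec2, hsec⟩ := exists_sec (Xi2 hS hV.fin)
  refine ⟨sec2, ?_⟩
  have key : ∀ P : Pl, P ∉ T → ∃ ch : G → ZMod l,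
        S.HomG ch ∧ ch (S.sg P) = 1 ∧ (∀ v, v ∉ T → v ≠ P → ch (S.sg v) = 0) ∧
        ∀ v ∈ T, loc2 S v ch = sec2 (mu hS T (S.phi P)) v := by
    intro P hP
    obtain ⟨c, hc, hc1, hcu⟩ := hF.ram P hP
    have hmu : Xi2 hS hV.fin (fun v => loc2 S v c) = mu hS T (S.phi P) := by
      ext b
      rw [Xi2_apply, mu_apply, sum_T2 hV hF hP hc hcu b.2, hc1, one_mul]
    have h1 := hsec (fun v => loc2 S v c)
    rw [hmu] at h1
    obtain ⟨om, hom, hom'⟩ := hF.surj
      (fun v => sec2 (mu hS T (S.phi P)) v - loc2 S v c) (by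
        intro b hb
        rw [finsum_mem_eq_finite_toFinset_sum _ hV.fin]
        have h2 := LinearMap.congr_fun h1 ⟨b, hb⟩
        rw [Xi2_apply, mu_apply] at h2
        have h3 := sum_T2 hV hF hP hc hcu hb
        rw [hc1, one_mul] at h3
        simp only [symL_sub_left, sum_sub_distrib]
        rw [h2, h3]
        exact sub_self _)
    refine ⟨c + om, homG_add hS hc hom.1, ?_, ?_, ?_⟩
    · rw [Pi.add_apply, hom.2 P hP, hc1, add_zero]
    · intro v hv hvP
      rw [Pi.add_apply, hom.2 v hv, hcu v hv hvP, add_zero]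
    · intro v hv
      rw [loc2_add, hom' v hv]
      abel
  choose! ch hch using key
  exact ⟨ch, hch⟩

/-- The sum over `T` of the symbols of two characters, each ramified at one place outside `T`. -/
theorem sum_T3 (hV : LagV S T) (hF : LagF S T) {P Q : Pl} (hP : P ∉ T) (hQ : Q ∉ T) (hPQ : P ≠ Q)
    {c d : G → ZMod l} (hc : S.HomG c) (hcu : ∀ v, v ∉ T → v ≠ P → c (S.sg v) = 0)
    (hd : S.HomG d) (hdu : ∀ v, v ∉ T → v ≠ Q → d (S.sg v) = 0) (hc1 : c (S.sg P) = 1)
    (hd1 : d (S.sg Q) = 1) :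
    c (S.phi Q) - d (S.phi P) =
      -∑ v ∈ hV.fin.toFinset, symL (loc2 S v c) (loc2 S v d) := by
  classical
  have h1 := hF.recip c d hc hd
  have h2 : ∀ v, v ∉ T → v ≠ P → v ≠ Q → symL (loc2 S v c) (loc2 S v d) = 0 :=
    fun v hv hvP hvQ => by
      simp only [symL, loc2]
      rw [hcu v hv hvP, hdu v hv hvQ]
      ring
  have h3 : symL (loc2 S P c) (loc2 S P d) = -d (S.phi P) := by
    simp only [symL, loc2]
    rw [hdu P hP hPQ, hc1]
    ring
  have h3' : symL (loc2 S Q c) (loc2 S Q d) = c (S.phi Q) := by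
    simp only [symL, loc2]
    rw [hcu Q hQ hPQ.symm, hd1]
    ring
  have h4 : (Function.support fun v => symL (loc2 S v c) (loc2 S v d)) ⊆
      ((insert P (insert Q hV.fin.toFinset) : Finset Pl) : Set Pl) := by
    intro v hv
    rw [Function.mem_support] at hv
    rw [Finset.coe_insert, Finset.coe_insert, Set.mem_insert_iff, Set.mem_insert_iff,
      Set.Finite.coe_toFinset]
    by_contra hcon
    push Not at hcon
    exact hv (h2 v hcon.2.2 hcon.1 hcon.2.1)
  rw [finsum_eq_sum_of_support_subset _ h4, sum_insert (by simp [hPQ, hP]),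
    sum_insert (by simpa using hQ), h3, h3'] at h1
  linear_combination h1

end Pool.Agent.SmL.Ch
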