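import Pool.Agent.Lib.SmL.Cnt.Defs
import Pool.Agent.Lib.SmL.G.CTDefs

/-!
# SMITH-L, the counting data from duality: definitions

`LagV S T`: duality for the cocycles with values in `V1` unramified outside the finite set `T` of
places (the local vectors at `T` of these cocycles are a maximal isotropic subspace), `LagF S T`: the
same for the characters with values in `ZMod l`, with reciprocity. From these two structures and
`S.Ok` we construct the counting data `CData` and prove `CData.Ok`.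
-/

set_option autoImplicit false

open Finset

namespace Pool.Agent.SmL.Ch

variable {l : ℕ} {A G V V1 Pl : Type} [CommRing A] [Group G] [AddCommGroup V] [Module A V]
  [DistribMulAction G V] [AddCommGroup V1] [Module (ZMod l) V1]

/-- The cocycles unramified outside `T`. -/
def ZT (S : Sys l A G V V1 Pl) (T : Set Pl) (c : G → V1) : Prop :=
  S.CocG c ∧ ∀ v, v ∉ T → c (S.sg v) = 0

/-- The characters unramified outside `T`. -/
def XT (S : Sys l A G V V1 Pl) (T : Set Pl) (c : G → ZMod l) : Prop :=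
  S.HomG c ∧ ∀ v, v ∉ T → c (S.sg v) = 0

/-- The local symbol of two characters (given by their pairs of values at `sg`, `phi`). -/
def symL {l : ℕ} (x y : ZMod l × ZMod l) : ZMod l := x.2 * y.1 - x.1 * y.2

/-- The pair of values of a character. -/
def loc2 (S : Sys l A G V V1 Pl) (v : Pl) (c : G → ZMod l) : ZMod l × ZMod l :=
  (c (S.sg v), c (S.phi v))

/-- Duality for `V1` with respect to the finite set `T`. -/
structure LagV (S : Sys l A G V V1 Pl) (T : Set Pl) : Prop where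
  fin : T.Finite
  bad : S.goodᶜ ⊆ T
  inj : ∀ b : G → V1, ZT S T b → (∀ v ∈ T, ∃ z, S.loc v b = S.cob v z) →
    ∃ z, ∀ s, b s = S.ac s z - z
  surj : ∀ xi : Pl → V1 × V1, (∀ v, xi v ∈ S.CP v) →
    (∀ b : G → V1, ZT S T b → ∑ᶠ v ∈ T, S.sy v (xi v) (S.loc v b) = 0) →
    ∃ om : G → V1, ZT S T om ∧ ∀ v ∈ T, ∃ z, S.loc v om = xi v + S.cob v z
  ram : ∀ w, w ∉ T → ∀ x : V1, S.ac (S.phi w) x = x →
    ∃ c : G → V1, S.CocG c ∧ c (S.sg w) = x ∧ ∀ v, v ∉ T → v ≠ w → c (S.sg v) = 0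

/-- Duality for the characters with respect to the finite set `T`. -/
structure LagF (S : Sys l A G V V1 Pl) (T : Set Pl) : Prop where
  inj : ∀ b : G → ZMod l, XT S T b → (∀ v ∈ T, loc2 S v b = 0) → b = 0
  surj : ∀ xi : Pl → ZMod l × ZMod l,
    (∀ b : G → ZMod l, XT S T b → ∑ᶠ v ∈ T, symL (xi v) (loc2 S v b) = 0) →
    ∃ om : G → ZMod l, XT S T om ∧ ∀ v ∈ T, loc2 S v om = xi v
  ram : ∀ w, w ∉ T → ∃ c : G → ZMod l, S.HomG c ∧ c (S.sg w) = 1 ∧
    ∀ v, v ∉ T → v ≠ w → c (S.sg v) = 0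
  recip : ∀ c d : G → ZMod l, S.HomG c → S.HomG d →
    ∑ᶠ v, symL (loc2 S v c) (loc2 S v d) = 0

/-! ### Linear algebra of cocycles and characters -/

variable {S : Sys l A G V V1 Pl}

/-- Finitely many `NN`-finite functions together are `NN`-finite. -/
theorem tf_pi (h : S.Ok) {ι α : Type*} [Finite ι] {f : ι → G → α} (hf : ∀ i, S.TF (f i)) :
    S.TF (fun s i => f i s) := by
  classical
  have := Fintype.ofFinite ι
  choose N hN hf using hf
  have key : ∀ I : Finset ι, (I.inf N) ∈ S.NN := by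
    intro I
    induction I using Finset.induction_on with
    | empty => simpa using h.top_mem
    | insert a I _ ih => rw [Finset.inf_insert]; exact h.inf_mem _ (hN a) _ ih
  refine ⟨Finset.univ.inf N, key _, fun s n hn => funext fun i => ?_⟩
  have hle : Finset.univ.inf N ≤ N i := Finset.inf_le (Finset.mem_univ i)
  exact hf i s n (hle hn)

theorem homG_add (h : S.Ok) {B : Type} [AddCommGroup B] {b b' : G → B} (hb : S.HomG b)
    (hb' : S.HomG b') : S.HomG (b + b') := by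
  refine ⟨Sys.TF.comp₂ h hb.1 hb'.1 (fun x y => x + y), fun s t => ?_⟩
  simp only [Pi.add_apply, hb.2 s t, hb'.2 s t]
  abel

theorem homG_sub (h : S.Ok) {B : Type} [AddCommGroup B] {b b' : G → B} (hb : S.HomG b)
    (hb' : S.HomG b') : S.HomG (b - b') := by
  refine ⟨Sys.TF.comp₂ h hb.1 hb'.1 (fun x y => x - y), fun s t => ?_⟩
  simp only [Pi.sub_apply, hb.2 s t, hb'.2 s t]
  abel

theorem homG_zero (h : S.Ok) {B : Type} [AddCommGroup B] : S.HomG (0 : G → B) :=
  ⟨Sys.TF_const h 0, fun _ _ => (add_zero 0).symm⟩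

theorem homG_smul (a : ZMod l) {b : G → ZMod l} (hb : S.HomG b) : S.HomG (a • b) := by
  refine ⟨Sys.TF.comp hb.1 (fun x => a • x), fun s t => ?_⟩
  simp only [Pi.smul_apply, hb.2 s t, smul_add]

theorem cocG_add (h : S.Ok) {b b' : G → V1} (hb : S.CocG b) (hb' : S.CocG b') :
    S.CocG (b + b') := by
  refine ⟨Sys.TF.comp₂ h hb.1 hb'.1 (fun x y => x + y), fun s t => ?_⟩
  simp only [Pi.add_apply, hb.2 s t, hb'.2 s t, map_add]
  abel

theorem cocG_sub (h : S.Ok) {b b' : G → V1} (hb : S.CocG b) (hb' : S.CocG b') :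
    S.CocG (b - b') := by
  refine ⟨Sys.TF.comp₂ h hb.1 hb'.1 (fun x y => x - y), fun s t => ?_⟩
  simp only [Pi.sub_apply, hb.2 s t, hb'.2 s t, map_sub]
  abel

theorem cocG_smul (a : ZMod l) {b : G → V1} (hb : S.CocG b) : S.CocG (a • b) := by
  refine ⟨Sys.TF.comp hb.1 (fun x => a • x), fun s t => ?_⟩
  simp only [Pi.smul_apply, hb.2 s t, smul_add, map_smul]

theorem cocG_zero (h : S.Ok) : S.CocG (0 : G → V1) :=
  ⟨Sys.TF_const h 0, fun s _ => by simp⟩

theorem loc_mem {b : G → V1} (hb : S.CocG b) (v : Pl) : S.loc v b ∈ S.CP v :=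
  ⟨b, ⟨hb.1.on _, fun s _ t _ => hb.2 s t⟩, rfl⟩

theorem cp_add (h : S.Ok) {v : Pl} {x y : V1 × V1} (hx : x ∈ S.CP v) (hy : y ∈ S.CP v) :
    x + y ∈ S.CP v := by
  obtain ⟨c, ⟨hc1, hc2⟩, rfl⟩ := hx
  obtain ⟨d, ⟨hd1, hd2⟩, rfl⟩ := hy
  refine ⟨fun s => c s + d s, ⟨Sys.TFOn.comp₂ h hc1 hd1 (fun a b => a + b), fun s hs t ht => ?_⟩,
    rfl⟩
  simp only [hc2 s hs t ht, hd2 s hs t ht, map_add]
  abel

theorem cp_sub (h : S.Ok) {v : Pl} {x y : V1 × V1} (hx : x ∈ S.CP v) (hy : y ∈ S.CP v) :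
    x - y ∈ S.CP v := by
  obtain ⟨c, ⟨hc1, hc2⟩, rfl⟩ := hx
  obtain ⟨d, ⟨hd1, hd2⟩, rfl⟩ := hy
  refine ⟨fun s => c s - d s, ⟨Sys.TFOn.comp₂ h hc1 hd1 (fun a b => a - b), fun s hs t ht => ?_⟩,
    rfl⟩
  simp only [hc2 s hs t ht, hd2 s hs t ht, map_sub]
  abel

theorem cp_smul (a : ZMod l) {v : Pl} {x : V1 × V1} (hx : x ∈ S.CP v) : a • x ∈ S.CP v := by
  obtain ⟨c, ⟨hc1, hc2⟩, rfl⟩ := hx
  refine ⟨fun s => a • c s, ⟨Sys.TFOn.comp hc1 (fun x => a • x), fun s hs t ht => ?_⟩, rfl⟩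
  simp only [hc2 s hs t ht, smul_add, map_smul]

theorem cp_zero (h : S.Ok) (v : Pl) : (0 : V1 × V1) ∈ S.CP v := loc_mem (cocG_zero h) v

theorem cob_add (v : Pl) (z z' : V1) : S.cob v (z + z') = S.cob v z + S.cob v z' := by
  ext1
  · change S.ac (S.sg v) (z + z') - (z + z') = (S.ac (S.sg v) z - z) + (S.ac (S.sg v) z' - z')
    rw [map_add]
    abel
  · change S.ac (S.phi v) (z + z') - (z + z') = (S.ac (S.phi v) z - z) + (S.ac (S.phi v) z' - z')
    rw [map_add]
    abel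

theorem cob_smul (v : Pl) (a : ZMod l) (z : V1) : S.cob v (a • z) = a • S.cob v z := by
  ext1
  · change S.ac (S.sg v) (a • z) - a • z = a • (S.ac (S.sg v) z - z)
    rw [map_smul, smul_sub]
  · change S.ac (S.phi v) (a • z) - a • z = a • (S.ac (S.phi v) z - z)
    rw [map_smul, smul_sub]

theorem cob_zero (v : Pl) : S.cob v 0 = 0 := by
  have h := cob_smul (S := S) v 0 0
  rwa [zero_smul, zero_smul] at h

theorem cob_neg (v : Pl) (z : V1) : S.cob v (-z) = -S.cob v z := by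
  have h := cob_smul (S := S) v (-1) z
  rwa [neg_one_smul, neg_one_smul] at h

/-- The pairing of two unramified cocycles. -/
theorem sy_unr_zero (h : S.Ok) {v : Pl} (hv : v ∈ S.good) {x y : V1 × V1} (hx : x ∈ S.CP v)
    (hy : y ∈ S.CP v) (hx1 : x.1 = 0) (hy1 : y.1 = 0) : S.sy v x y = 0 := by
  rw [h.sy_unr v hv x hx y hy hx1, hy1, map_zero]

theorem symL_add_left (x x' y : ZMod l × ZMod l) : symL (x + x') y = symL x y + symL x' y := by
  simp only [symL, Prod.fst_add, Prod.snd_add]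
  ring

theorem symL_sub_left (x x' y : ZMod l × ZMod l) : symL (x - x') y = symL x y - symL x' y := by
  simp only [symL, Prod.fst_sub, Prod.snd_sub]
  ring

theorem symL_add_right (x y y' : ZMod l × ZMod l) : symL x (y + y') = symL x y + symL x y' := by
  simp only [symL, Prod.fst_add, Prod.snd_add]
  ring

theorem symL_smul_left (a : ZMod l) (x y : ZMod l × ZMod l) : symL (a • x) y = a * symL x y := by
  simp only [symL, Prod.smul_fst, Prod.smul_snd, smul_eq_mul]
  ring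

theorem symL_smul_right (a : ZMod l) (x y : ZMod l × ZMod l) : symL x (a • y) = a * symL x y := by
  simp only [symL, Prod.smul_fst, Prod.smul_snd, smul_eq_mul]
  ring

end Pool.Agent.SmL.Ch
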