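import Pool.Agent.Lib.SmL.Ch.ChebT

/-!
# SMITH-L, block CH: existence of places with a given Frobenius class, for the family `NNp K Om N0`
-/

set_option autoImplicit false

open Finset

namespace Pool.Agent.SmL

open Ch Cb
open Polynomial Pool.Agent.BSDFF Pool.Agent.GBC Pool.Agent.GBU Pool.Agent.Lib.SmD

theorem not_frequently_pow_le {q : ℝ} (hq : 1 < q) (A : ℝ) (i m : ℕ) (hm : 1 ≤ m) :
    ∃ j : ℕ, 1 ≤ i + m * j ∧ A * (i + m * j : ℕ) * √(q ^ (i + m * j)) < q ^ (i + m * j) := by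
  have h1 := tendsto_pow_const_div_const_pow_of_one_lt 2 hq
  have hpos : (0 : ℝ) < 1 / (A ^ 2 + 1) := by positivity
  have h2 := (h1.eventually (gt_mem_nhds hpos)).and (Filter.eventually_ge_atTop 1)
  obtain ⟨n, hn⟩ := Filter.eventually_atTop.1 h2
  have hle : n ≤ i + m * n := by nlinarith
  obtain ⟨h3, h4⟩ := hn (i + m * n) hle
  refine ⟨n, h4, ?_⟩
  set d := i + m * n with hd
  have hqd : (0 : ℝ) < q ^ d := pow_pos (by linarith) _
  have h5 : (d : ℝ) ^ 2 * (A ^ 2 + 1) < q ^ d := by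
    rw [div_lt_div_iff₀ hqd (by positivity)] at h3
    linarith
  have h6 : (A * d) ^ 2 < q ^ d := by
    have h7 : (0 : ℝ) ≤ (d : ℝ) ^ 2 := sq_nonneg _
    nlinarith
  have h7 : A * d < √(q ^ d) := by
    refine lt_of_le_of_lt (le_abs_self _) ?_
    rw [← Real.sqrt_sq_eq_abs]
    exact Real.sqrt_lt_sqrt (sq_nonneg _) h6
  have h8 : 0 < √(q ^ d) := Real.sqrt_pos.2 hqd
  calc A * d * √(q ^ d) < √(q ^ d) * √(q ^ d) := mul_lt_mul_of_pos_right h7 h8
    _ = q ^ d := Real.mul_self_sqrt hqd.le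

section conc

variable {k K : Type} [Field k] [Finite k] [Field K] [Algebra k K] [Algebra (RatFunc k) K]
  [IsScalarTower k (RatFunc k) K] [FiniteDimensional (RatFunc k) K]
  [Algebra.IsSeparable (RatFunc k) K]
  {Om : Type} [Field Om] [Algebra K Om] [IsGalois K Om]

/-- Existence of places with given Frobenius class from the Chebotarev bound. -/
theorem exists_frob_core (hk : ∀ x : K, IsIntegral k x → ∃ c : k, algebraMap k K c = x)
    {ph : Place k K → (Om ≃ₐ[K] Om)} {fr : Om ≃ₐ[K] Om} (hfr : IsFrC k fr)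
    {N : Subgroup (Om ≃ₐ[K] Om)} (hNn : N.Normal) (hNo : IsOpen (N : Set (Om ≃ₐ[K] Om)))
    (hNfi : N.FiniteIndex) (s : Om ≃ₐ[K] Om) {T : Set (Place k K)} (hT : T.Finite)
    (B : Finset {v : Place k K // v ∉ T}) (A' : ℝ)
    (hC : ∀ f : (Om ≃ₐ[K] Om) → ℝ, (∀ s, ∀ n ∈ N, f (s * n) = f s) →
      (∀ s t, f (t * s * t⁻¹) = f s) → (∀ s, |f s| ≤ 1) →
      ∀ U : Finset (Om ≃ₐ[K] Om), (∀ t ∈ U, t ∈ GeoK k K Om) →
      (∀ g ∈ GeoK k K Om, ∃! t, t ∈ U ∧ t⁻¹ * g ∈ N) → ∀ d : ℕ, 1 ≤ d →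
      ∀ E : Finset {v : Place k K // v ∉ T}, (∀ P, P ∈ E ↔ P.1.degree = d ∧ P ∉ B) →
      |∑ P ∈ E, f (ph P.1) - (E.card : ℝ) * ((∑ t ∈ U, f (fr ^ d * t)) / U.card)| ≤
        A' * √((Nat.card k : ℝ) ^ d)) :
    ∃ v, v ∉ T ∧ ∃ g : Om ≃ₐ[K] Om, (g * ph v * g⁻¹)⁻¹ * s ∈ N := by
  classical
  by_contra hcon
  push Not at hcon
  obtain ⟨hq, hpos, hfin, C1, hC1⟩ := xokL (k := k) (K := K) hk hT
  obtain ⟨U, hU, hU'⟩ := exists_reps (GeoK k K Om) N
  obtain ⟨i, g, hg, hig⟩ := gen_GeoK (k := k) hfr hNo s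
  -- the class function
  set f : (Om ≃ₐ[K] Om) → ℝ := fun x => if ∃ t : Om ≃ₐ[K] Om, (t * x * t⁻¹)⁻¹ * s ∈ N then 1 else 0
    with hf
  have hfN : ∀ x, ∀ n ∈ N, f (x * n) = f x := by
    intro x n hn
    rw [hf]
    refine if_congr (exists_congr fun t => ?_) rfl rfl
    have h1 : (t * (x * n) * t⁻¹)⁻¹ * s = (t * n⁻¹ * t⁻¹) * ((t * x * t⁻¹)⁻¹ * s) := by group
    rw [h1, Subgroup.mul_mem_cancel_left _ (hNn.conj_mem _ (N.inv_mem hn) t)]
  have hfc : ∀ x t, f (t * x * t⁻¹) = f x := by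
    intro x u
    rw [hf]
    refine if_congr ⟨?_, ?_⟩ rfl rfl
    · rintro ⟨t, ht⟩
      refine ⟨t * u, ?_⟩
      have h1 : (t * u * x * (t * u)⁻¹)⁻¹ * s = (t * (u * x * u⁻¹) * t⁻¹)⁻¹ * s := by group
      rwa [h1]
    · rintro ⟨t, ht⟩
      refine ⟨t * u⁻¹, ?_⟩
      have h1 : (t * u⁻¹ * (u * x * u⁻¹) * (t * u⁻¹)⁻¹)⁻¹ * s = (t * x * t⁻¹)⁻¹ * s := by group
      rwa [h1]
  have hf1 : ∀ x, |f x| ≤ 1 := by
    intro x
    rw [hf]
    change |if ∃ t : Om ≃ₐ[K] Om, (t * x * t⁻¹)⁻¹ * s ∈ N then (1 : ℝ) else 0| ≤ 1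
    split_ifs <;> simp
  have hf0 : ∀ x, 0 ≤ f x := by
    intro x
    rw [hf]
    change 0 ≤ if ∃ t : Om ≃ₐ[K] Om, (t * x * t⁻¹)⁻¹ * s ∈ N then (1 : ℝ) else 0
    split_ifs <;> norm_num
  -- numbers
  set q : ℝ := (Nat.card k : ℝ) with hqdef
  have hq1 : 1 < q := by
    have : (2 : ℝ) ≤ q := by
      rw [hqdef]
      exact_mod_cast hq
    linarith
  set A : ℝ := U.card * A' + B.card + |C1| with hA
  obtain ⟨j, hj1, hj2⟩ := not_frequently_pow_le hq1 A i N.index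
    (Nat.one_le_iff_ne_zero.2 hNfi.index_ne_zero)
  set d := i + N.index * j with hd
  -- the places of degree `d`
  have hOf : Finite {P : {v : Place k K // v ∉ T} // P.1.degree = d} := hfin d
  have hEf : {P : {v : Place k K // v ∉ T} | P.1.degree = d}.Finite := hOf
  set E0 : Finset {v : Place k K // v ∉ T} := hEf.toFinset with hE0
  set E : Finset {v : Place k K // v ∉ T} := E0.filter fun P => P ∉ B with hE
  have hEmem : ∀ P, P ∈ E ↔ P.1.degree = d ∧ P ∉ B := by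
    intro P
    rw [hE, Finset.mem_filter, hE0, Set.Finite.mem_toFinset]
    rfl
  have h1 := hC f hfN hfc hf1 U hU hU' d hj1 E hEmem
  have hzero : ∑ P ∈ E, f (ph P.1) = 0 := by
    refine Finset.sum_eq_zero fun P _ => ?_
    rw [hf]
    refine if_neg ?_
    rintro ⟨t, ht⟩
    exact hcon P.1 P.2 t ht
  have hU0 : (0 : ℝ) < U.card := by
    obtain ⟨t, ⟨ht, -⟩, -⟩ := hU' 1 (GeoK k K Om).one_mem
    exact_mod_cast Finset.card_pos.2 ⟨t, ht⟩
  have hmean : 1 / (U.card : ℝ) ≤ (∑ t ∈ U, f (fr ^ d * t)) / U.card := by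
    refine div_le_div_of_nonneg_right ?_ hU0.le
    obtain ⟨u, ⟨hu, hug⟩, -⟩ := hU' g hg
    have h2 : f (fr ^ d * u) = 1 := by
      rw [hf]
      refine if_pos ⟨1, ?_⟩
      have h3 : (fr ^ N.index) ^ j ∈ N := N.pow_mem (Subgroup.pow_index_mem N fr) j
      have h4 : (1 * (fr ^ d * u) * 1⁻¹)⁻¹ * s =
          (u⁻¹ * ((fr ^ N.index) ^ j)⁻¹ * (u⁻¹)⁻¹) * ((u⁻¹ * g) * ((fr ^ i * g)⁻¹ * s)) := by
        rw [hd, pow_add, pow_mul]
        group
      rw [h4]
      exact N.mul_mem (hNn.conj_mem _ (N.inv_mem h3) _) (N.mul_mem hug hig)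
    rw [← h2]
    exact Finset.single_le_sum (f := fun t => f (fr ^ d * t)) (fun t _ => hf0 _) hu
  set X : ℝ := √(q ^ d) with hX
  have hX1 : 1 ≤ X := by
    rw [hX, Real.one_le_sqrt]
    exact one_le_pow₀ hq1.le
  have hEle : (E.card : ℝ) ≤ U.card * A' * X := by
    rw [hzero, zero_sub, abs_neg, abs_of_nonneg (mul_nonneg (Nat.cast_nonneg _)
      (le_trans (by positivity) hmean))] at h1
    have h2 : (E.card : ℝ) * (1 / (U.card : ℝ)) ≤ A' * X :=
      (mul_le_mul_of_nonneg_left hmean (Nat.cast_nonneg _)).trans h1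
    rw [mul_one_div, div_le_iff₀ hU0] at h2
    linarith
  have hcard : (Nat.card {P : {v : Place k K // v ∉ T} // P.1.degree = d} : ℝ) ≤
      E.card + B.card := by
    have h2 : Nat.card {P : {v : Place k K // v ∉ T} // P.1.degree = d} = E0.card := by
      rw [hE0]
      exact Nat.card_eq_card_finite_toFinset hEf
    have h3 : E0.card ≤ E.card + B.card := by
      rw [← Finset.card_filter_add_card_filter_not (s := E0) (fun P => P ∉ B)]
      refine Nat.add_le_add_left (Finset.card_le_card fun P hP => ?_) _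
      have h4 := (Finset.mem_filter.1 hP).2
      rwa [not_not] at h4
    rw [h2]
    exact_mod_cast h3
  have h2 := hC1 d hj1
  have h3 : q ^ d ≤ d * (Nat.card {P : {v : Place k K // v ∉ T} // P.1.degree = d} : ℝ) +
      |C1| * X := by
    have h4 := (abs_le.1 h2).1
    have h5 : C1 * X ≤ |C1| * X := mul_le_mul_of_nonneg_right (le_abs_self _) (by linarith)
    change -(C1 * X) ≤ (d : ℝ) *
      (Nat.card {P : {v : Place k K // v ∉ T} // P.1.degree = d} : ℝ) - q ^ d at h4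
    linarith
  have hd1 : (1 : ℝ) ≤ d := by exact_mod_cast hj1
  have h4 : q ^ d ≤ A * d * X := by
    have h5 : (d : ℝ) * (Nat.card {P : {v : Place k K // v ∉ T} // P.1.degree = d} : ℝ) ≤
        d * (U.card * A' * X + B.card * X) := by
      refine mul_le_mul_of_nonneg_left ?_ (by linarith)
      refine hcard.trans (add_le_add hEle ?_)
      exact le_mul_of_one_le_right (Nat.cast_nonneg _) hX1
    have h6 : |C1| * X ≤ d * (|C1| * X) :=
      le_mul_of_one_le_left (mul_nonneg (abs_nonneg _) (by linarith)) hd1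
    have h7 : A * d * X = d * (U.card * A' * X + B.card * X) +
        d * (|C1| * X) := by
      rw [hA]
      ring
    rw [h7]
    linarith
  have h5 : A * (d : ℝ) * X < q ^ d := hj2
  linarith

/-- **Existence of places with given Frobenius class**, outside of a finite set. -/
theorem exists_frobL (hk : ∀ x : K, IsIntegral k x → ∃ c : k, algebraMap k K c = x)
    {N0 : Subgroup (Om ≃ₐ[K] Om)} (hN0 : N0.Normal) (hN0o : IsOpen (N0 : Set (Om ≃ₐ[K] Om)))
    {ab : Place k K → ValuationSubring Om} (hab : ∀ v, below K (ab v) = v.ring)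
    {sg ph : Place k K → (Om ≃ₐ[K] Om)} (hph : ∀ v, IsFrob K (ab v) (ph v))
    (hsg : ∀ N ∈ NNp K Om N0, ∀ v, sg v ∈ N → iner K (ab v) ≤ N)
    (hunr : ∀ N ∈ NNp K Om N0, {v | sg v ∉ N}.Finite) {fr : Om ≃ₐ[K] Om} (hfr : IsFrC k fr)
    {N : Subgroup (Om ≃ₐ[K] Om)} (hN : N ∈ NNp K Om N0) (s : Om ≃ₐ[K] Om)
    {T : Set (Place k K)} (hT : T.Finite) :
    ∃ v, v ∉ T ∧ ∃ g : Om ≃ₐ[K] Om, (g * ph v * g⁻¹)⁻¹ * s ∈ N := by
  obtain ⟨a, C, hC⟩ := chebL (T := T) hN0 hN0o hab hph hsg (hunr N0 (NNp.self_mem hN0 hN0o)) hT hfr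
  have hBf : {P : {v : Place k K // v ∉ T} | sg P.1 ∉ N}.Finite :=
    Set.Finite.preimage Subtype.val_injective.injOn (hunr N hN)
  refine exists_frob_core hk hfr (NNp.normal hN) (NNp.isOpen hN) (NNp.finiteIndex hN) s hT
    hBf.toFinset (C * ((N.index : ℝ) * ((∑ P ∈ hBf.toFinset, P.1.degree : ℕ) + 1)) ^ a) ?_
  intro f h1 h2 h3 U h4 h5 d hd E hE
  exact hC N (NNp.normal hN) ⟨N, hN, le_rfl⟩ f h1 h2 h3 U h4 h5 d _ hd hBf.toFinset
    (fun P hP => by rw [Set.Finite.mem_toFinset]; exact hP) le_rfl E hE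

/-- **Existence of places with given Frobenius class** in an arbitrary finite Galois extension,
outside of a finite set. -/
theorem exists_frob_open (hk : ∀ x : K, IsIntegral k x → ∃ c : k, algebraMap k K c = x)
    {ab : Place k K → ValuationSubring Om} (hab : ∀ v, below K (ab v) = v.ring)
    {ph : Place k K → (Om ≃ₐ[K] Om)} (hph : ∀ v, IsFrob K (ab v) (ph v))
    {fr : Om ≃ₐ[K] Om} (hfr : IsFrC k fr)
    {N : Subgroup (Om ≃ₐ[K] Om)} (hN : N.Normal) (hNo : IsOpen (N : Set (Om ≃ₐ[K] Om)))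
    (s : Om ≃ₐ[K] Om) {T : Set (Place k K)} (hT : T.Finite) :
    ∃ v, v ∉ T ∧ ∃ g : Om ≃ₐ[K] Om, (g * ph v * g⁻¹)⁻¹ * s ∈ N := by
  classical
  have hNfi : N.FiniteIndex := NNp.finiteIndex (NNp.self_mem hN hNo)
  let _ : Algebra k[X] K :=
    ((algebraMap (RatFunc k) K).comp (algebraMap k[X] (RatFunc k))).toAlgebra
  have : IsScalarTower k[X] (RatFunc k) K := IsScalarTower.of_algebraMap_eq fun _ => rfl
  obtain ⟨L, hLfd, hLgal, hLN⟩ := exists_field_of_open hN hNo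
  let _ : Algebra (RatFunc k) L := ((algebraMap K L).comp (algebraMap (RatFunc k) K)).toAlgebra
  have : IsScalarTower (RatFunc k) K L := IsScalarTower.of_algebraMap_eq fun _ => rfl
  obtain ⟨C, a, hB2⟩ := B2_finL k K L
  let _ : Algebra k[X] L :=
    ((algebraMap (RatFunc k) L).comp (algebraMap k[X] (RatFunc k))).toAlgebra
  have : IsScalarTower k[X] (RatFunc k) L := IsScalarTower.of_algebraMap_eq fun _ => rfl
  let _ : Algebra k L := ((algebraMap k[X] L).comp (algebraMap k k[X])).toAlgebra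
  have : IsScalarTower k k[X] L := IsScalarTower.of_algebraMap_eq fun _ => rfl
  have : IsScalarTower k[X] K L := SmBU.tow_KM
  -- an element of the inertia group which is not in `N`, if there is one
  have hsgex : ∀ v : Place k K, ∃ σ ∈ iner K (ab v), σ ∈ N → iner K (ab v) ≤ N := by
    intro v
    by_cases h : ∃ σ ∈ iner K (ab v), σ ∉ N
    · obtain ⟨σ, h1, h2⟩ := h
      exact ⟨σ, h1, fun h3 => absurd h3 h2⟩
    · push Not at h
      exact ⟨1, (iner K (ab v)).one_mem, fun _ σ hσ => h σ hσ⟩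
  choose sg hsg1 hsg using hsgex
  have hfin0 : {v | sg v ∉ N}.Finite := by
    refine (finite_unr_open (k := k) hNo).subset ?_
    intro v hv
    exact ⟨ab v, hab v, fun h => hv (h (hsg1 v))⟩
  have hBf : {P : {v : Place k K // v ∉ T} | sg P.1 ∉ N}.Finite :=
    Set.Finite.preimage Subtype.val_injective.injOn hfin0
  set r : ℕ := ∑ P ∈ hBf.toFinset, P.1.degree with hr
  set q : ℝ := (Nat.card k : ℝ) with hq
  have hq1 : 1 ≤ q := by
    have : 0 < Nat.card k := Nat.card_pos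
    rw [hq]
    exact_mod_cast this
  refine exists_frob_core hk hfr hN hNo hNfi s hT hBf.toFinset
    (2 * (C * (Module.finrank K L : ℝ) ^ a * ((r + ∑ v ∈ hT.toFinset, v.degree : ℕ) + 1) * q) +
      2 * (SmBU.finite_notFinPl k K).toFinset.card) ?_
  intro f hfN hfc hf1 U hU hU' d hd E hE
  have hlift : ∀ τ : L ≃ₐ[K] L, ∃ s : Om ≃ₐ[K] Om, AlgEquiv.restrictNormalHom L s = τ :=
    AlgEquiv.restrictNormalHom_surjective Om
  choose li hli using hlift
  set fL : (L ≃ₐ[K] L) → ℝ := fun τ => f (li τ) with hfL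
  have hfLr : ∀ s : Om ≃ₐ[K] Om, fL (AlgEquiv.restrictNormalHom L s) = f s := by
    intro s
    rw [hfL]
    change f (li (AlgEquiv.restrictNormalHom L s)) = f s
    have h1 : s⁻¹ * li (AlgEquiv.restrictNormalHom L s) ∈ L.fixingSubgroup := by
      rw [← IntermediateField.restrictNormalHom_ker, MonoidHom.mem_ker, map_mul, map_inv, hli,
        inv_mul_cancel]
    rw [hLN] at h1
    rw [← hfN s _ h1, mul_inv_cancel_left]
  have hfLc : ∀ g τ, fL (g * τ * g⁻¹) = fL τ := by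
    intro g τ
    rw [← hli g, ← hli τ, ← map_inv, ← map_mul, ← map_mul, hfLr, hfLr, hfc]
  have hdeg : ((Module.finrank L L : ℕ) : k) ≠ 0 := by
    rw [Module.finrank_self, Nat.cast_one]
    exact one_ne_zero
  have hlev := cheb_level (L := L) (C := C) (a := a)
    (fun Bad h1 h3 N hN g h4 h5 h6 S h7 fr' h8 =>
      hB2 L hdeg Bad h1 h3 N hN g h4 h5 h6 S h7 fr' h8)
    hab hph (fun v hv => by
      rw [hLN] at hv ⊢
      exact hsg v hv)
    hT hfr hfLc (fun τ => hf1 _) U hU (by rw [hLN]; exact hU') d r hd hBf.toFinset (by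
      intro P hP
      rw [Set.Finite.mem_toFinset]
      rw [hLN] at hP
      exact hP) le_rfl E hE
  simp only [hfLr] at hlev
  refine hlev.trans ?_
  have h1 : √(q ^ (d + 1)) ≤ q * √(q ^ d) := by
    rw [pow_succ, mul_comm, Real.sqrt_mul (by positivity)]
    refine mul_le_mul_of_nonneg_right ?_ (Real.sqrt_nonneg _)
    rw [Real.sqrt_le_left (by positivity)]
    nlinarith
  have h2 : 1 ≤ √(q ^ d) := by
    rw [Real.one_le_sqrt]
    exact one_le_pow₀ hq1
  have h3 := mul_le_mul_of_nonneg_left h1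
    (show 0 ≤ (C : ℝ) * (Module.finrank K L : ℝ) ^ a *
      ((r + ∑ v ∈ hT.toFinset, v.degree : ℕ) + 1) by positivity)
  have h4 : (2 : ℝ) * (SmBU.finite_notFinPl k K).toFinset.card ≤
      2 * (SmBU.finite_notFinPl k K).toFinset.card * √(q ^ d) :=
    le_mul_of_one_le_right (by positivity) h2
  rw [add_mul]
  refine add_le_add ?_ h4
  linarith

end conc

end Pool.Agent.SmL
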