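import Pool.Agent.Lib.SmL.Ch.Defs
import Pool.Agent.Lib.SmL.Ar.Fields
import Pool.Agent.Lib.SmL.Ar.Summand
import Pool.Agent.Lib.SmL.Ar.Sha
import Pool.Agent.Lib.SmL.Ar.IndD

/-!
# SMITH-L, block CH: `LagV` and `LagF` from the facts of block AR

`exists_lag`: for `T` large, `LagV S T` and `LagF S T` hold, from the facts `Gd` for the dual pair of `S`
and for the trivial dual pair `trP l G`.
-/

set_option autoImplicit false

open Finset

namespace Pool.Agent.SmL.Ch

open Ar

section triv

variable (l : ℕ) (G : Type*) [Group G]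

/-- The trivial dual pair `F_l`, `F_l`. -/
def trP : DP l G (ZMod l) (ZMod l) := ⟨1, 1, LinearMap.mul (ZMod l) (ZMod l)⟩

variable {l G} {Pl : Type*} {B : Bs G Pl}

theorem trP_sy (hB : B.Ok l) (v : Pl) (x y : ZMod l × ZMod l) :
    (trP l G).sy B v x y = symL x y :=
  sy_split (P := trP l G) hB rfl rfl rfl x y

theorem trP_cp (hB : B.Ok l) (hG : (trP l G).Lo B) (v : Pl) (x : ZMod l × ZMod l) :
    x ∈ CP B (trP l G).a v := by
  refine hG.cp v x ?_
  rw [rel_apply]
  have h1 : ∀ (n : ℕ) (z : ZMod l), nrm ((trP l G).a (B.sg v)) n z = n * z := by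
    intro n z
    rw [nrm_apply]
    have h2 : ∀ i, ((trP l G).a (B.sg v) ^ i : ZMod l ≃ₗ[ZMod l] ZMod l) z = z := by
      intro i
      change (((1 : ZMod l ≃ₗ[ZMod l] ZMod l)) ^ i) z = z
      rw [one_pow]
      rfl
    rw [sum_congr rfl fun i _ => h2 i, sum_const, card_range, nsmul_eq_mul]
  have h3 : ((trP l G).a (B.sg v) ^ B.q v : ZMod l ≃ₗ[ZMod l] ZMod l) x.2 = x.2 := by
    change (((1 : ZMod l ≃ₗ[ZMod l] ZMod l)) ^ B.q v) x.2 = x.2
    rw [one_pow]
    rfl
  have h4 : (trP l G).a (B.ph v) x.1 = x.1 := rfl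
  rw [h1, h3, h4, hB.q_one v, one_mul, sub_self, sub_self, add_zero]

/-- The Hasse principle for the characters. -/
theorem trP_sha (hB : B.Ok l) (hCh : B.Cheb1)
    (hf : ∀ T : Finset Pl, {c : G → ZMod l | Z1T B (trP l G).a T c}.Finite) :
    ∃ T0 : Finset Pl, ∀ T, T0 ⊆ T → ShaT B (trP l G).a T := by
  refine exists_shaT' hB ⟨⊤, hB.top_mem, fun _ _ => rfl⟩ (fun c hc h => ⟨0, fun g => ?_⟩) hf
  obtain ⟨z, hz⟩ := sha_pt hB ⟨⊤, hB.top_mem, fun _ _ => rfl⟩ hCh hc ∅ (fun v _ => h v) g
  rw [hz]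
  change z - z = (0 : ZMod l) - 0
  rw [sub_self, sub_self]

/-- The facts for the trivial dual pair from the facts for the permutation module of a point. -/
theorem trP_gd [MulAction G Unit] (hB : B.Ok l) (hG : (permP l G Unit).Gd B) :
    (trP l G).Gd B := by
  have hs : Smd (permP l G Unit) (trP l G)
      ((LinearMap.funLeft (ZMod l) (ZMod l) (fun _ : Unit => ())).comp
        (LinearEquiv.funUnique Unit (ZMod l) (ZMod l)).symm.toLinearMap)
      (LinearEquiv.funUnique Unit (ZMod l) (ZMod l)).toLinearMap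
      ((LinearMap.funLeft (ZMod l) (ZMod l) (fun _ : Unit => ())).comp
        (LinearEquiv.funUnique Unit (ZMod l) (ZMod l)).symm.toLinearMap)
      (LinearEquiv.funUnique Unit (ZMod l) (ZMod l)).toLinearMap :=
    { πι := fun x => rfl
      πι' := fun x => rfl
      ι_ac := fun s x => by
        funext y
        rw [permP_a]
        rfl
      π_ac := fun s x => by
        change (permP l G Unit).a s x () = x ()
        rw [permP_a]
      ι'_ac := fun s x => by
        funext y
        rw [permP_a']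
        rfl
      π'_ac := fun s x => by
        change (permP l G Unit).a' s x () = x ()
        rw [permP_a']
      adj := fun x y => by
        rw [permP_e]
        simp [trP]
      adj' := fun x y => by
        rw [permP_e]
        simp [trP] }
  exact hs.gd hB hG

end triv

section main

variable {l : ℕ} {A G V V1 Pl : Type} [CommRing A] [Group G] [AddCommGroup V] [Module A V]
  [DistribMulAction G V] [AddCommGroup V1] [Module (ZMod l) V1] {S : Sys l A G V V1 Pl}
  {q : Pl → ℕ}

theorem lagV_of (h : Lnk S q) {T : Finset Pl} (hbad : ∀ v, v ∉ T → v ∈ S.good)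
    (hsha : ShaT (bs S q) S.ac T) (hlag : (dp S).LagT (bs S q) T)
    (hcorr : CorrT (bs S q) S.ac T) : LagV S (T : Set Pl) where
  fin := T.finite_toSet
  bad := fun v hv => by
    by_contra h1
    exact hv (hbad v h1)
  inj := fun b hb hz => hsha b hb hz
  surj := fun xi hxi hb => by
    have h1 : ∀ d : G → V1, Z1T (bs S q) (dp S).a' T d →
        ∑ v ∈ T, (dp S).sy (bs S q) v (xi v) (loc (bs S q) v d) = 0 := by
      intro d hd
      have h2 := hb d hd
      rw [finsum_mem_coe_finset] at h2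
      rw [← h2]
      exact sum_congr rfl fun v _ => by rw [h.sy]; rfl
    obtain ⟨c, hc, hcT⟩ := hlag xi (fun v _ => hxi v) h1
    refine ⟨c, hc, fun v hv => ?_⟩
    obtain ⟨z, hz⟩ := hcT v hv
    refine ⟨z, ?_⟩
    have h3 : S.loc v c - xi v = S.cob v z := hz
    rw [← h3]
    abel
  ram := fun w hw x hx => by
    classical
    obtain ⟨c, hc, h1⟩ := hcorr (fun v => if v = w then x else 0)
      ((Set.finite_singleton w).subset fun v hv => by
        by_contra h2
        exact hv (if_neg h2)) (fun v _ => by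
        by_cases h2 : v = w
        · subst h2
          rw [if_pos rfl]
          exact hx
        · rw [if_neg h2, map_zero])
    refine ⟨c, hc, ?_, fun v hv hvw => ?_⟩
    · have h2 := h1 w hw
      rw [if_pos rfl] at h2
      exact h2
    · have h2 := h1 v hv
      rw [if_neg hvw] at h2
      exact h2

theorem lagF_of (hB : (bs S q).Ok l) (hR : (bs S q).Rec2 l) (hG : (trP l G).Gd (bs S q))
    {T : Finset Pl} (hsha : ShaT (bs S q) (trP l G).a T) (hlag : (trP l G).LagT (bs S q) T)
    (hcorr : CorrT (bs S q) (trP l G).a T) : LagF S (T : Set Pl) where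
  inj := fun b hb hz => by
    obtain ⟨z, hz'⟩ := hsha b hb fun v hv => ⟨0, by
      have h1 := hz v hv
      have h2 : loc (bs S q) v b = loc2 S v b := rfl
      rw [h2, h1]
      unfold cob
      rw [map_zero, map_zero, sub_self]
      rfl⟩
    funext s
    rw [hz' s]
    exact sub_self z
  surj := fun xi hb => by
    have h1 : ∀ d : G → ZMod l, Z1T (bs S q) (trP l G).a' T d →
        ∑ v ∈ T, (trP l G).sy (bs S q) v (xi v) (loc (bs S q) v d) = 0 := by
      intro d hd
      have h2 := hb d hd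
      rw [finsum_mem_coe_finset] at h2
      rw [← h2]
      exact sum_congr rfl fun v _ => by rw [trP_sy hB]; rfl
    obtain ⟨c, hc, hcT⟩ := hlag xi (fun v _ => trP_cp hB hG.lo v _) h1
    refine ⟨c, hc, fun v hv => ?_⟩
    obtain ⟨z, hz⟩ := hcT v hv
    have h3 : loc2 S v c - xi v = (z - z, z - z) := hz
    rw [sub_self, ← Prod.zero_eq_mk, sub_eq_zero] at h3
    exact h3
  ram := fun w hw => by
    classical
    obtain ⟨c, hc, h1⟩ := hcorr (fun v => if v = w then 1 else 0)
      ((Set.finite_singleton w).subset fun v hv => by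
        by_contra h2
        exact hv (if_neg h2)) (fun v _ => rfl)
    refine ⟨c, hc, ?_, fun v hv hvw => ?_⟩
    · have h2 := h1 w hw
      rw [if_pos rfl] at h2
      exact h2
    · have h2 := h1 v hv
      rw [if_neg hvw] at h2
      exact h2
  recip := fun c d hc hd => by
    have h1 := (recip (P := trP l G) hB hG.ok hR (c := c) (d := d) hc hd).2
    rw [← h1]
    exact finsum_congr fun v => (trP_sy hB v _ _).symm

/-- **`LagV` and `LagF`** for all large `T`. -/
theorem exists_lag (h : Lnk S q) (hR : (bs S q).Rec2 l) (hCh : (bs S q).Cheb1)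
    (hG : (dp S).Gd (bs S q)) (hsha : ∃ T0 : Finset Pl, ∀ T, T0 ⊆ T → ShaT (bs S q) S.ac T)
    (hGt : (trP l G).Gd (bs S q)) (hgood : S.goodᶜ.Finite) :
    ∃ T0 : Finset Pl, ∀ T : Finset Pl, T0 ⊆ T → LagV S (T : Set Pl) ∧ LagF S (T : Set Pl) := by
  classical
  have hB := h.ok
  obtain ⟨T1, h1⟩ := exists_T h hG hsha
  obtain ⟨T2, h2⟩ := trP_sha hB hCh hGt.gl.fin
  obtain ⟨T3, h3⟩ := hGt.gl.lag
  obtain ⟨T4, h4⟩ := hGt.gl'.lag
  refine ⟨T1 ∪ T2 ∪ T3 ∪ T4 ∪ hgood.toFinset, fun T hT => ?_⟩
  have k1 : T1 ⊆ T := fun v hv => hT (by simp [hv])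
  have k2 : T2 ⊆ T := fun v hv => hT (by simp [hv])
  have k3 : T3 ⊆ T := fun v hv => hT (by simp [hv])
  have k4 : T4 ⊆ T := fun v hv => hT (by simp [hv])
  have k5 : ∀ v, v ∉ T → v ∈ S.good := by
    intro v hv
    by_contra h5
    exact hv (hT (Finset.mem_union_right _ ((Set.Finite.mem_toFinset _).2 h5)))
  obtain ⟨-, h5, h6, h7⟩ := h1 T k1
  refine ⟨lagV_of h k5 h5 h6 h7, lagF_of hB hR hGt (h2 T k2) (h3 T k3) ?_⟩
  exact corrT (P := trP l G) hB hGt.ok hGt.lo hGt.lo' (fun v _ => rfl) (fun v _ => rfl)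
    (fun T' hT' => h4 T' (k4.trans hT')) (h2 T k2)

end main

end Pool.Agent.SmL.Ch
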