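import Pool.Agent.Lib.SmL.Ch.ExF
import Pool.Agent.Lib.SmL.Fld.Std

/-!
# SMITH-L, block CH: Chebotarev for the standard data of a global function field
-/

set_option autoImplicit false

namespace Pool.Agent.SmL

open Pool.Agent.BSDFF Pool.Agent.Lib.SmD Pool.Agent.GBU Pool.Agent.SmL.Ar Pool.Agent.SmL.C
  Pool.Agent.SmL.Fld Pool.Agent.SmL.Ch

variable {k K Ω : Type} [Field k] [Finite k] [Field K] [Algebra k K] [Algebra (RatFunc k) K]
  [IsScalarTower k (RatFunc k) K] [FiniteDimensional (RatFunc k) K]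
  [Algebra.IsSeparable (RatFunc k) K] [Field Ω] [Algebra K Ω] [IsSepClosure K Ω]
  {l : ℕ} {ζ : Ω} {w : Place k K → ValuationSubring Ω} {sg ph : Place k K → Ω ≃ₐ[K] Ω}

theorem NNt_eq (N0 : Subgroup (Ω ≃ₐ[K] Ω)) : NNt N0 = NNp K Ω N0 := rfl

/-- **Chebotarev (existence)** for the standard data. -/
theorem cheb1_std {NN : Set (Subgroup (Ω ≃ₐ[K] Ω))}
    (hk : ∀ x : K, IsIntegral k x → ∃ c : k, algebraMap k K c = x)
    (hS : Std l ζ NN w sg ph) : (bK NN w sg ph).Cheb1 := by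
  have hgal : IsGalois K Ω := IsSepClosure.isGalois
  obtain ⟨fr, hfr⟩ := exists_isFrC (k := k) (K := K) (Om := Ω)
    fun x hx => hk x (SmBU.isIntegral_iff_isC.2 hx)
  intro N hN g T
  exact exists_frob_open (k := k) hk hS.loc.below hS.frob hfr (hS.fam.normal N hN)
    (hS.fam.isOpen N hN) g T.finite_toSet

/-- **Chebotarev** with error term for the systems with the standard data. -/
theorem chebT_std {A V V1 : Type} [CommRing A] [AddCommGroup V] [Module A V]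
    [DistribMulAction (Ω ≃ₐ[K] Ω) V] [AddCommGroup V1] [Module (ZMod l) V1]
    {S : Sys l A (Ω ≃ₐ[K] Ω) V V1 (Place k K)} {N0 : Subgroup (Ω ≃ₐ[K] Ω)} (h0 : N0.Normal)
    (h0o : IsOpen (N0 : Set (Ω ≃ₐ[K] Ω))) (hS : Std l ζ (NNt N0) w sg ph)
    (hNN : S.NN = NNt N0) (hsg : S.sg = sg) (hph : S.phi = ph) {T : Set (Place k K)}
    (hT : T.Finite) {fr : Ω ≃ₐ[K] Ω} (hfr : IsFrC k fr) :
    ∃ a C : ℕ, ChebT S T Place.degree (GeoK k K Ω) fr (Nat.card k) a C := by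
  have hgal : IsGalois K Ω := IsSepClosure.isGalois
  subst hsg hph
  refine chebT (S := S) h0 h0o hNN hS.loc.below hS.frob ?_ (hS.unr N0 (NNp.self_mem h0 h0o)) hT hfr
  intro N hN v hv s hs
  obtain ⟨n, hn⟩ := hS.igen v N hN s hs
  have h1 := N.mul_mem (N.pow_mem hv n) hn
  rwa [mul_inv_cancel_left] at h1

/-- `GeoOk` for the systems with the standard data. -/
theorem geoOk_std {A V V1 : Type} [CommRing A] [AddCommGroup V] [Module A V]
    [DistribMulAction (Ω ≃ₐ[K] Ω) V] [AddCommGroup V1] [Module (ZMod l) V1]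
    {S : Sys l A (Ω ≃ₐ[K] Ω) V V1 (Place k K)} {NN : Set (Subgroup (Ω ≃ₐ[K] Ω))}
    (hS : Std l ζ NN w sg ph) (hNN : S.NN = NN) (hsg : S.sg = sg) {fr : Ω ≃ₐ[K] Ω}
    (hfr : IsFrC k fr)
    (h1 : ∀ c : (Ω ≃ₐ[K] Ω) → V1, S.CocG c → (∀ s ∈ S.GN, c s = 0) →
      ∃ z : V1, ∀ s, c s = S.ac s z - z) : CData.GeoOk (S := S) (GeoK k K Ω) fr := by
  have hgal : IsGalois K Ω := IsSepClosure.isGalois
  refine geoOk_of (fun N hN => ?_) (fun v => ⟨w v, ?_⟩) hfr h1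
  · rw [hNN] at hN
    exact ⟨hS.fam.normal N hN, hS.fam.isOpen N hN⟩
  · rw [hsg]
    exact hS.loc.iner v

end Pool.Agent.SmL
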